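import Pool.Agent.Lib.MP_1a91b9_ntT.S4.Dyadic

/-!
# S10: quadratic extensions generated by a square root
-/

set_option autoImplicit false

namespace Pool.Agent.Lib.MP_1a91b9_ntT.S10

open NumberField IsDedekindDomain Polynomial

universe u

/-- `F(√c)` for a non-square `c`. -/
theorem exists_quad (F : Type u) [Field F] [NumberField F] (c : F) (h : ¬ IsSquare c) :
    ∃ (F' : Type u) (_ : Field F') (_ : NumberField F') (_ : Algebra F F') (x : F'),
      x ^ 2 = algebraMap F F' c ∧ (¬ ∃ y : F, algebraMap F F' y = x) ∧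
      (∀ z : F', ∃ a b : F, z = algebraMap F F' a + algebraMap F F' b * x) ∧
      Module.finrank F F' = 2 := by
  set P : F[X] := X ^ 2 - C c with hP
  have hdeg : P.natDegree = 2 := by rw [hP]; compute_degree!
  have hmon : P.Monic := by rw [hP]; monicity!
  have hirr : Irreducible P := by
    rw [irreducible_iff_roots_eq_zero_of_degree_le_three (by omega) (by omega)]
    rw [Multiset.eq_zero_iff_forall_notMem]
    intro y hy
    have h1 := (mem_roots'.1 hy).2
    rw [hP, IsRoot.def, eval_sub, eval_pow, eval_X, eval_C] at h1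
    exact h ⟨y, by linear_combination -h1⟩
  have : Fact (Irreducible P) := ⟨hirr⟩
  let F' := AdjoinRoot P
  have hP0 : P ≠ 0 := hmon.ne_zero
  have hfd : FiniteDimensional F F' := (AdjoinRoot.powerBasis hP0).finite
  let : Algebra ℚ F' := inferInstance
  have : CharZero F' := charZero_of_injective_algebraMap (algebraMap F F').injective
  have : FiniteDimensional ℚ F' := by
    have : IsScalarTower ℚ F F' := inferInstance
    exact Module.Finite.trans F F'
  have : NumberField F' := { to_charZero := inferInstance, to_finiteDimensional := inferInstance }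
  have hx : (AdjoinRoot.root P) ^ 2 = algebraMap F F' c := by
    have h1 : eval₂ (AdjoinRoot.of P) (AdjoinRoot.root P) P = 0 := AdjoinRoot.eval₂_root P
    have h2 : eval₂ (AdjoinRoot.of P) (AdjoinRoot.root P) (X ^ 2 - C c) = 0 := h1
    rw [eval₂_sub, eval₂_pow, eval₂_X, eval₂_C] at h2
    exact sub_eq_zero.mp h2
  have hn : ¬ ∃ y : F, algebraMap F F' y = AdjoinRoot.root P := by
    rintro ⟨y, hy⟩
    apply h
    rw [← hy, ← map_pow] at hx
    exact ⟨y, by rw [← sq]; exact ((algebraMap F F').injective hx).symm⟩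
  have hgen : ∀ z : F', ∃ a b : F, z = algebraMap F F' a + algebraMap F F' b * AdjoinRoot.root P := by
    intro z
    obtain ⟨g, rfl⟩ := AdjoinRoot.mk_surjective z
    have h3 : AdjoinRoot.mk P g = AdjoinRoot.mk P (g %ₘ P) := by
      rw [AdjoinRoot.mk_eq_mk]
      exact ⟨g /ₘ P, by rw [← sub_eq_iff_eq_add.2 (modByMonic_add_div g P).symm]; ring⟩
    have h4 : (g %ₘ P).natDegree < 2 := by
      rw [← hdeg]
      exact natDegree_modByMonic_lt g hmon (by
        intro h5
        rw [h5, natDegree_one] at hdeg
        exact absurd hdeg (by norm_num))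
    obtain ⟨a, b, hab⟩ : ∃ a b : F, g %ₘ P = C a * X + C b := by
      exact exists_eq_X_add_C_of_natDegree_le_one (by omega)
    refine ⟨b, a, ?_⟩
    rw [h3, hab, map_add, map_mul, AdjoinRoot.mk_C, AdjoinRoot.mk_X, AdjoinRoot.mk_C, add_comm]
    rfl
  exact ⟨F', inferInstance, inferInstance, inferInstance, AdjoinRoot.root P, hx, hn, hgen,
    S4.finrank_step c _ hx hn hgen⟩

end Pool.Agent.Lib.MP_1a91b9_ntT.S10
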