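import Pool.Agent.Lib.MP_1a91b9_ntT.S10.NormTwo
import Pool.Agent.Lib.MP_1a91b9_ntT.S4.Biquad
import Pool.Agent.Lib.MP_1a91b9_ntT.S4.Dyadic

/-!
# S10: the splitting character at the dyadic places
-/

set_option autoImplicit false

namespace Pool.Agent.Lib.MP_1a91b9_ntT.S10

open NumberField IsDedekindDomain Module Pool.Agent.Lib.MP_1a91b9_nt
open Pool.Agent.Lib.MP_1a91b9_ntT.S1 Pool.Agent.Lib.MP_1a91b9_ntT.S4

universe u

section
variable {F F' : Type u} [Field F] [NumberField F] [Field F'] [NumberField F'] [Algebra F F']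

/-- The image of a place under an automorphism. -/
noncomputable def moved (σ : F' ≃ₐ[F] F') (w : HeightOneSpectrum (𝓞 F')) :
    HeightOneSpectrum (𝓞 F') where
  asIdeal := w.asIdeal.comap (RingOfIntegers.mapRingEquiv σ.toRingEquiv)
  isPrime := by
    have := w.isPrime
    exact Ideal.comap_isPrime _ _
  ne_bot := by
    intro h
    apply w.ne_bot
    rw [eq_bot_iff]
    intro y hy
    obtain ⟨z, rfl⟩ := (RingOfIntegers.mapRingEquiv σ.toRingEquiv).surjective y
    have hz : z ∈ w.asIdeal.comap (RingOfIntegers.mapRingEquiv σ.toRingEquiv) := hy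
    rw [h, Ideal.mem_bot] at hz
    rw [hz, map_zero]
    exact Ideal.zero_mem _

theorem mem_moved (σ : F' ≃ₐ[F] F') (w : HeightOneSpectrum (𝓞 F')) (y : 𝓞 F') :
    y ∈ (moved σ w).asIdeal ↔ RingOfIntegers.mapRingEquiv σ.toRingEquiv y ∈ w.asIdeal := Iff.rfl

theorem moved_under (σ : F' ≃ₐ[F] F') (w : HeightOneSpectrum (𝓞 F')) :
    (moved σ w).asIdeal.under (𝓞 F) = w.asIdeal.under (𝓞 F) := by
  ext y
  rw [Ideal.mem_comap, Ideal.mem_comap, mem_moved]
  have : RingOfIntegers.mapRingEquiv σ.toRingEquiv (algebraMap (𝓞 F) (𝓞 F') y) =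
      algebraMap (𝓞 F) (𝓞 F') y := by
    apply RingOfIntegers.coe_injective
    exact σ.commutes (y : F)
  rw [this]

/-- A dyadic place `v` splits in `F(√δ)`, `δ = a² + 4 b`, if and only if `z² = a z + b` has a
solution modulo `v`. -/
theorem splitChar_iff (hL : Module.finrank F F' = 2) (δ a b : 𝓞 F) (hab : δ = a ^ 2 + 4 * b)
    (x : F') (hx : x ^ 2 = algebraMap F F' δ)
    (hgen : ∀ z : F', ∃ a b : F, z = algebraMap F F' a + algebraMap F F' b * x)
    (v : HeightOneSpectrum (𝓞 F)) (hδv : δ ∉ v.asIdeal) :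
    splitChar F' v = 1 ↔ ∃ z : 𝓞 F, z ^ 2 - a * z - b ∈ v.asIdeal := by
  -- the integral elements
  have hint : IsIntegral ℤ x := by
    have h1 : IsIntegral ℤ (x ^ 2) := by
      rw [hx, ← IsScalarTower.algebraMap_apply, IsScalarTower.algebraMap_apply (𝓞 F) (𝓞 F') F']
      exact RingOfIntegers.isIntegral_coe _
    exact h1.of_pow two_pos
  let X : 𝓞 F' := ⟨x, hint⟩
  have hX : X ^ 2 = algebraMap (𝓞 F) (𝓞 F') δ := by
    apply RingOfIntegers.ext
    change x ^ 2 = _
    rw [hx]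
    rfl
  set A : 𝓞 F' := algebraMap (𝓞 F) (𝓞 F') a with hA
  set B : 𝓞 F' := algebraMap (𝓞 F) (𝓞 F') b with hB
  have hx2 : X ^ 2 = A ^ 2 + 4 * B := by
    rw [hX, hab, hA, hB, map_add, map_mul, map_pow, map_ofNat]
  have hxx : x ^ 2 = (A : F') ^ 2 + 4 * (B : F') := by
    have h1 := congrArg (algebraMap (𝓞 F') F') hx2
    rw [map_pow, map_add, map_pow, map_mul, map_ofNat] at h1
    exact h1
  have hYint : IsIntegral ℤ ((x + (A : F')) / 2) := by
    have hy : ((x + (A : F')) / 2) * ((x + A) / 2) - A * ((x + A) / 2) = B := by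
      field_simp
      linear_combination hxx
    have h1 : IsIntegral (integralClosure ℤ F') ((x + (A : F')) / 2) := by
      let A' : integralClosure ℤ F' := ⟨(A : F'), RingOfIntegers.isIntegral_coe A⟩
      let B' : integralClosure ℤ F' := ⟨(B : F'), RingOfIntegers.isIntegral_coe B⟩
      refine ⟨Polynomial.X ^ 2 - Polynomial.C A' * Polynomial.X - Polynomial.C B', ?_, ?_⟩
      · have : (Polynomial.X ^ 2 - Polynomial.C A' * Polynomial.X - Polynomial.C B') =
          Polynomial.X ^ 2 + (-(Polynomial.C A' * Polynomial.X) - Polynomial.C B') := by ring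
        rw [this]
        apply Polynomial.monic_X_pow_add
        compute_degree!
      · simp only [Polynomial.eval₂_sub, Polynomial.eval₂_mul, Polynomial.eval₂_pow,
          Polynomial.eval₂_X, Polynomial.eval₂_C]
        change ((x + (A : F')) / 2) ^ 2 - (A : F') * ((x + A) / 2) - (B : F') = 0
        linear_combination hy
    exact isIntegral_trans _ h1
  let Y : 𝓞 F' := ⟨(x + (A : F')) / 2, hYint⟩
  have hYc : (Y : F') = (x + (A : F')) / 2 := rfl
  have hY2 : 2 * Y = X + A := by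
    apply RingOfIntegers.coe_injective
    rw [map_mul, map_ofNat, map_add]
    change 2 * ((x + (A : F')) / 2) = x + (A : F')
    ring
  have hYY : Y * Y - A * Y = B := by
    apply RingOfIntegers.coe_injective
    rw [map_sub, map_mul, map_mul]
    change ((x + (A : F')) / 2) * ((x + A) / 2) - A * ((x + A) / 2) = B
    field_simp
    linear_combination hxx
  have hprod : ∀ z : 𝓞 F, (Y - algebraMap (𝓞 F) (𝓞 F') z) * (A - Y - algebraMap (𝓞 F) (𝓞 F') z) =
      algebraMap (𝓞 F) (𝓞 F') (z ^ 2 - a * z - b) := by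
    intro z
    rw [map_sub, map_sub, map_mul, map_pow, ← hA, ← hB]
    linear_combination -hYY
  constructor
  · intro h1
    rcases splitChar_spec hL v with ⟨-, h3, h4⟩ | ⟨h3, -, -⟩ | ⟨h3, -, -⟩
    · have hne : Nonempty (Over F' v) := by
        rw [← Fintype.card_pos_iff]
        omega
      obtain ⟨w⟩ := hne
      have h5 := h4 w
      rw [nrm_eq, nrm_eq] at h5
      have hwm := w.1.isMaximal
      have hvm := v.isMaximal
      have hlo : w.1.asIdeal.LiesOver v.asIdeal := ⟨w.2.symm⟩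
      have hfv : Finite (𝓞 F ⧸ v.asIdeal) := Ideal.finiteQuotientOfFreeOfNeBot _ v.ne_bot
      have hfw : Finite (𝓞 F' ⧸ w.1.asIdeal) := Ideal.finiteQuotientOfFreeOfNeBot _ w.1.ne_bot
      have hle : v.asIdeal ≤ w.1.asIdeal.comap (algebraMap (𝓞 F) (𝓞 F')) := w.2.symm.le
      let φ : 𝓞 F ⧸ v.asIdeal →+* 𝓞 F' ⧸ w.1.asIdeal :=
        Ideal.quotientMap w.1.asIdeal (algebraMap (𝓞 F) (𝓞 F')) hle
      have hinj : Function.Injective φ := by
        exact Ideal.quotientMap_injective' w.2.le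
      have hbij : Function.Bijective φ := by
        let _ := Fintype.ofFinite (𝓞 F ⧸ v.asIdeal)
        let _ := Fintype.ofFinite (𝓞 F' ⧸ w.1.asIdeal)
        rw [Fintype.bijective_iff_injective_and_card]
        refine ⟨hinj, ?_⟩
        rw [← Nat.card_eq_fintype_card, ← Nat.card_eq_fintype_card]
        exact h5.symm
      obtain ⟨zq, hz⟩ := hbij.2 (Ideal.Quotient.mk w.1.asIdeal Y)
      obtain ⟨z, rfl⟩ := Ideal.Quotient.mk_surjective zq
      refine ⟨z, ?_⟩
      have h6 : Y - algebraMap (𝓞 F) (𝓞 F') z ∈ w.1.asIdeal := by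
        rw [← Ideal.Quotient.eq_zero_iff_mem, map_sub, sub_eq_zero, ← hz]
        exact Ideal.quotientMap_mk
      have h7 : algebraMap (𝓞 F) (𝓞 F') (z ^ 2 - a * z - b) ∈ w.1.asIdeal := by
        rw [← hprod z]
        exact Ideal.mul_mem_right _ _ h6
      have h8 : z ^ 2 - a * z - b ∈ w.1.asIdeal.under (𝓞 F) := h7
      rw [w.2] at h8
      exact h8
    · rw [h3] at h1
      norm_num at h1
    · rw [h3] at h1
      norm_num at h1
  · rintro ⟨z, hz⟩
    rcases splitChar_dyadic hL δ a b hab x hx hgen v hδv with h1 | h1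
    · exact h1
    exfalso
    rcases splitChar_spec hL v with ⟨h3, -, -⟩ | ⟨h3, h4, -⟩ | ⟨h3, -, -⟩
    · rw [h3] at h1
      norm_num at h1
    · obtain ⟨w, hw⟩ := Fintype.card_eq_one_iff.1 h4
      -- the automorphism
      have hquad : Algebra.IsQuadraticExtension F F' := ⟨hL⟩
      have hgal : IsGalois F F' := inferInstance
      have hcard : Nat.card Gal(F'/F) = 2 := by
        rw [IsGalois.card_aut_eq_finrank, hL]
      obtain ⟨σ, hσ⟩ : ∃ σ : F' ≃ₐ[F] F', σ ≠ 1 := by
        by_contra hall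
        push Not at hall
        have : Nat.card Gal(F'/F) = 1 := by
          rw [Nat.card_eq_one_iff_unique]
          exact ⟨⟨fun g g' => by rw [hall g, hall g']⟩, ⟨1⟩⟩
        omega
      have hσx : σ x = -x := by
        have h5 : (σ x) ^ 2 = x ^ 2 := by
          rw [← map_pow, hx, AlgEquiv.commutes]
        rcases sq_eq_sq_iff_eq_or_eq_neg.mp h5 with h6 | h6
        · exfalso
          apply hσ
          ext t
          obtain ⟨c, d, rfl⟩ := hgen t
          rw [map_add, map_mul, AlgEquiv.commutes, AlgEquiv.commutes, h6]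
          rfl
        · exact h6
      have hmv : moved σ w.1 = w.1 := by
        have h5 : (moved σ w.1).asIdeal.under (𝓞 F) = v.asIdeal := by
          rw [moved_under, w.2]
        have h6 := hw ⟨moved σ w.1, h5⟩
        exact congrArg Subtype.val h6
      have hσY : RingOfIntegers.mapRingEquiv σ.toRingEquiv Y = A - Y := by
        apply RingOfIntegers.coe_injective
        rw [map_sub]
        change σ ((x + (A : F')) / 2) = (A : F') - (x + (A : F')) / 2
        have hAc : σ (A : F') = (A : F') := σ.commutes (a : F)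
        rw [map_div₀, map_add, map_ofNat, hσx, hAc]
        ring
      have hσz : RingOfIntegers.mapRingEquiv σ.toRingEquiv (algebraMap (𝓞 F) (𝓞 F') z) =
          algebraMap (𝓞 F) (𝓞 F') z := by
        apply RingOfIntegers.coe_injective
        exact σ.commutes (z : F)
      have h7 : (Y - algebraMap (𝓞 F) (𝓞 F') z) * (A - Y - algebraMap (𝓞 F) (𝓞 F') z) ∈
          w.1.asIdeal := by
        rw [hprod z]
        have h8 : z ^ 2 - a * z - b ∈ w.1.asIdeal.under (𝓞 F) := by
          rw [w.2]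
          exact hz
        exact h8
      have h9 : Y - algebraMap (𝓞 F) (𝓞 F') z ∈ w.1.asIdeal ↔
          A - Y - algebraMap (𝓞 F) (𝓞 F') z ∈ w.1.asIdeal := by
        have h10 := mem_moved σ w.1 (Y - algebraMap (𝓞 F) (𝓞 F') z)
        rw [hmv, map_sub, hσY, hσz] at h10
        exact h10
      have h11 : Y - algebraMap (𝓞 F) (𝓞 F') z ∈ w.1.asIdeal ∧
          A - Y - algebraMap (𝓞 F) (𝓞 F') z ∈ w.1.asIdeal := by
        rcases w.1.isPrime.mem_or_mem h7 with h12 | h12
        · exact ⟨h12, h9.1 h12⟩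
        · exact ⟨h9.2 h12, h12⟩
      have h13 : X ∈ w.1.asIdeal := by
        have h14 : X = (Y - algebraMap (𝓞 F) (𝓞 F') z) -
            (A - Y - algebraMap (𝓞 F) (𝓞 F') z) := by
          linear_combination -hY2
        rw [h14]
        exact sub_mem h11.1 h11.2
      have h15 : δ ∈ w.1.asIdeal.under (𝓞 F) := by
        rw [Ideal.mem_comap, ← hX]
        exact Ideal.pow_mem_of_mem _ h13 2 (by norm_num)
      rw [w.2] at h15
      exact hδv h15
    · rw [h3] at h1
      norm_num at h1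

/-- **The product formula for two**: the splitting characters at the dyadic places. -/
theorem splitChar_two (hL : Module.finrank F F' = 2) (h : Unr2 F) (δ a b : 𝓞 F)
    (hab : δ = a ^ 2 + 4 * b) (hδ2 : IsCoprime δ 2)
    (x : F') (hx : x ^ 2 = algebraMap F F' δ)
    (hgen : ∀ z : F', ∃ a b : F, z = algebraMap F F' a + algebraMap F F' b * x)
    (D S : Finset (HeightOneSpectrum (𝓞 F))) (hD : ∀ v, v ∈ D ↔ (2 : 𝓞 F) ∈ v.asIdeal)
    (hS : ∀ Q : HeightOneSpectrum (𝓞 F), Q ∈ S ↔ OddAt Q δ) :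
    ∏ v ∈ D, splitChar F' v = ∏ Q ∈ S, chi Q (2 : 𝓞 F) := by
  refine law_two h δ a b hab hδ2 D S hD hS (splitChar F') fun v hv => ?_
  have hδv : δ ∉ v.asIdeal := fun h1 =>
    not_two_mem_of_coprime hδ2 v h1 ((hD v).1 hv)
  exact ⟨splitChar_dyadic hL δ a b hab x hx hgen v hδv,
    splitChar_iff hL δ a b hab x hx hgen v hδv⟩

/-- `chiI` at `2`. -/
theorem chiI_two (h : Unr2 F) (χ : HeightOneSpectrum (𝓞 F) → ℤ)
    (D : Finset (HeightOneSpectrum (𝓞 F))) (hD : ∀ v, v ∈ D ↔ (2 : 𝓞 F) ∈ v.asIdeal) :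
    chiI χ (Ideal.span {(2 : 𝓞 F)}) = ∏ v ∈ D, χ v := by
  classical
  have hI : Ideal.span {(2 : 𝓞 F)} ≠ 0 := by
    intro h
    have := Ideal.span_singleton_eq_bot.mp h
    norm_num at this
  rw [chiI_eq_prod χ _ hI D (fun Q hQ => (hD Q).2 ((Ideal.span_singleton_le_iff_mem _).1 hQ))]
  refine Finset.prod_congr rfl fun v hv => ?_
  have h2 := (hD v).1 hv
  have h4 := h v h2
  have hirr : Irreducible v.asIdeal := v.irreducible
  have key : ∀ n : ℕ, (2 : 𝓞 F) ∈ v.asIdeal ^ n ↔ n ≤ od v.asIdeal (Ideal.span {(2 : 𝓞 F)}) := by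
    intro n
    rw [← Ideal.span_singleton_le_iff_mem, ← Ideal.dvd_iff_le, pow_dvd_iff_le_emultiplicity,
      UniqueFactorizationMonoid.emultiplicity_eq_count_normalizedFactors hirr hI, normalize_eq,
      Nat.cast_le]
    unfold od
    exact Iff.rfl
  have h5 := (key 1).1 (by rw [pow_one]; exact h2)
  have h6 : ¬ 2 ≤ od v.asIdeal (Ideal.span {(2 : 𝓞 F)}) := fun h7 => h4 ((key 2).2 h7)
  have h7 : od v.asIdeal (Ideal.span {(2 : 𝓞 F)}) = 1 := by omega
  rw [h7, pow_one]

/-- A dyadic symbol with prescribed values: an odd element `1 + 4 c` which is inert at `v` and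
split at the other dyadic places. -/
theorem exists_only (h : Unr2 F) (v : HeightOneSpectrum (𝓞 F)) (h2 : (2 : 𝓞 F) ∈ v.asIdeal) :
    ∃ c : 𝓞 F, (¬ ∃ z : 𝓞 F, z ^ 2 - 1 * z - c ∈ v.asIdeal) ∧
      ∀ v' : HeightOneSpectrum (𝓞 F), (2 : 𝓞 F) ∈ v'.asIdeal → v' ≠ v → c ∈ v'.asIdeal := by
  obtain ⟨e, he, he'⟩ := exists_idem v
  obtain ⟨c, hc⟩ := exists_odd_trace h v h2 e (he h2) he'
  have hns : ¬ Sol v c := fun h3 => hc ((even_trace_iff h v h2 e (he h2) he' c).2 h3)
  refine ⟨e * c, fun ⟨z, hz⟩ => hns ⟨z, ?_⟩, fun v' h2' hne =>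
    Ideal.mul_mem_right _ _ (he' v' h2' hne)⟩
  have e1 : z ^ 2 + z - c = (z ^ 2 - 1 * z - e * c) + 2 * z + (e - 1) * c := by ring
  rw [e1]
  exact add_mem (add_mem hz (Ideal.mul_mem_right _ _ h2)) (Ideal.mul_mem_right _ _ (he h2))

end

end Pool.Agent.Lib.MP_1a91b9_ntT.S10
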