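import Pool.Agent.Lib.MP_1a91b9_ntT.S10.Final0
import Pool.Agent.Lib.MP_1a91b9_ntT.S10.Crit
import Pool.Agent.Lib.MP_1a91b9_ntT.DY.Two

/-!
# S10: the criterion at the dyadic places and the special elements
-/

set_option autoImplicit false

namespace Pool.Agent.Lib.MP_1a91b9_ntT.S10

open NumberField IsDedekindDomain Pool.Agent.Lib.MP_1a91b9_nt
open Pool.Agent.Lib.MP_1a91b9_ntT.S1 Pool.Agent.Lib.MP_1a91b9_ntT.S4

universe u

section
variable (F : Type u) [Field F] [NumberField F]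

/-- the two criteria agree -/
theorem chi2_eq_one_iff (v : HeightOneSpectrum (𝓞 F)) (δ a b : 𝓞 F) (hab : δ = a ^ 2 + 4 * b) :
    DY.chi2 v δ = 1 ↔ ∃ x : 𝓞 F, x ^ 2 - a * x - b ∈ v.asIdeal := by
  have h1 : DY.chi2 v δ = 1 ↔ DY.IsSp v δ := by
    constructor
    · intro h
      by_contra h2
      rw [DY.chi2_neg h2] at h
      norm_num at h
    · exact DY.chi2_pos
  rw [h1, DY.isSp_iff v δ a b hab]
  constructor
  · rintro ⟨t, ht⟩
    refine ⟨-t, ?_⟩
    have e : (-t) ^ 2 - a * (-t) - b = t ^ 2 + a * t - b := by ring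
    rwa [e]
  · rintro ⟨t, ht⟩
    refine ⟨-t, ?_⟩
    have e : (-t) ^ 2 + a * (-t) - b = t ^ 2 - a * t - b := by ring
    rwa [e]

/-- **The splitting character at the dyadic places.** -/
theorem crit : Crit F := by
  intro F' _ _ _ δ a b x hab hodd hx hn hgen v hv
  have hL : Module.finrank F F' = 2 := finrank_step _ x hx hn hgen
  have hδv : δ ∉ v.asIdeal := fun h1 => not_two_mem_of_coprime hodd v h1 hv
  have h1 := splitChar_dyadic hL δ a b hab x hx hgen v hδv
  have h2 := splitChar_iff hL δ a b hab x hx hgen v hδv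
  rw [← chi2_eq_one_iff F v δ a b hab] at h2
  rcases DY.chi2_cases v δ with h3 | h3
  · rw [h3, h2.2 h3]
  · rcases h1 with h1 | h1
    · rw [h2.1 h1] at h3
      norm_num at h3
    · rw [h1, h3]

/-- **The special elements.** -/
theorem only (hunr : ∀ v : HeightOneSpectrum (𝓞 F), (2 : 𝓞 F) ∈ v.asIdeal →
    (2 : 𝓞 F) ∉ v.asIdeal ^ 2) : Only F := by
  classical
  intro v hv
  obtain ⟨c, hc1, hc2⟩ := exists_only (F := F) hunr v hv
  have hneg : DY.chi2 v (1 + 4 * c) = -1 := by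
    rcases DY.chi2_cases v (1 + 4 * c) with h | h
    · exact absurd ((chi2_eq_one_iff F v (1 + 4 * c) 1 c (by ring)).1 h) hc1
    · exact h
  have hpos : ∀ v' : HeightOneSpectrum (𝓞 F), (2 : 𝓞 F) ∈ v'.asIdeal → v' ≠ v →
      DY.chi2 v' (1 + 4 * c) = 1 := by
    intro v' hv' hne
    refine (chi2_eq_one_iff F v' (1 + 4 * c) 1 c (by ring)).2 ⟨0, ?_⟩
    have e : (0 : 𝓞 F) ^ 2 - 1 * 0 - c = -c := by ring
    rw [e]
    exact neg_mem (hc2 v' hv' hne)
  refine ⟨c, hneg, hpos, fun S hS => ?_⟩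
  have hd2 : IsCoprime (1 + 4 * c) 2 := ⟨1, -2 * c, by ring⟩
  have key := law_two (F := F) hunr (1 + 4 * c) 1 c (by ring) hd2 (finite_dyadic F).toFinset
    (S.filter (fun Q => OddAt Q (1 + 4 * c)))
    (fun v => by rw [Set.Finite.mem_toFinset]; rfl)
    (fun Q => by
      rw [Finset.mem_filter]
      exact ⟨fun h => h.2, fun h => ⟨hS Q h, h⟩⟩)
    (fun v => DY.chi2 v (1 + 4 * c))
    (fun w _ => ⟨DY.chi2_cases w _, chi2_eq_one_iff F w (1 + 4 * c) 1 c (by ring)⟩)
  rw [← key]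
  have hmem : v ∈ (finite_dyadic F).toFinset := by
    rw [Set.Finite.mem_toFinset]
    exact hv
  rw [← Finset.mul_prod_erase _ _ hmem, hneg, Finset.prod_eq_one, mul_one]
  intro w hw
  rw [Finset.mem_erase, Set.Finite.mem_toFinset] at hw
  exact hpos w hw.2 hw.1

end

end Pool.Agent.Lib.MP_1a91b9_ntT.S10
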