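import Mathlib

/-!
# S10: the trace modulo two and the Artin-Schreier symbols at the dyadic places
-/

set_option autoImplicit false

namespace Pool.Agent.Lib.MP_1a91b9_ntT.S10

open NumberField IsDedekindDomain Module

/-- `2` is unramified in `F`. -/
def Unr2 (F : Type*) [Field F] [NumberField F] : Prop :=
  ∀ v : HeightOneSpectrum (𝓞 F), (2 : 𝓞 F) ∈ v.asIdeal → (2 : 𝓞 F) ∉ v.asIdeal ^ 2

section AS
variable {k : Type*} [Field k] [CharP k 2]

/-- `x ↦ x² + x`. -/
def wp2 (k : Type*) [Field k] [CharP k 2] : k →+ k where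
  toFun x := x ^ 2 + x
  map_zero' := by ring
  map_add' x y := by
    have h := CharTwo.add_self_eq_zero (x * y)
    linear_combination h

theorem wp2_ker : ((wp2 k).ker : Set k) = {0, 1} := by
  ext x
  rw [SetLike.mem_coe, AddMonoidHom.mem_ker, Set.mem_insert_iff, Set.mem_singleton_iff]
  change x ^ 2 + x = 0 ↔ _
  have e : x ^ 2 + x = x * (x - 1) := by
    have h := CharTwo.add_self_eq_zero x
    linear_combination h
  rw [e, mul_eq_zero, sub_eq_zero]

theorem wp2_index [Finite k] : (wp2 k).range.index = 2 := by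
  have h1 : Nat.card (wp2 k).ker = 2 := by
    have : Nat.card (wp2 k).ker = Nat.card ({0, 1} : Set k) := by
      rw [← wp2_ker]
      rfl
    rw [this, Nat.card_coe_set_eq, Set.ncard_pair zero_ne_one]
  have h2 := (wp2 k).ker.card_mul_index
  have h3 := (wp2 k).range.card_mul_index
  have h4 : (wp2 k).ker.index = Nat.card (wp2 k).range := AddSubgroup.index_ker _
  rw [h1, h4] at h2
  have h5 : 0 < Nat.card (wp2 k).range := Nat.card_pos
  have h6 : Nat.card (wp2 k).range * (wp2 k).range.index = Nat.card (wp2 k).range * 2 := by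
    rw [h3, ← h2, mul_comm]
  exact Nat.eq_of_mul_eq_mul_left h5 h6

/-- The sum of two elements which are not of the form `x² + x` is of this form. -/
theorem wp2_add [Finite k] {c c' : k} (h : ¬ ∃ x, x ^ 2 + x = c) (h' : ¬ ∃ x, x ^ 2 + x = c') :
    ∃ x, x ^ 2 + x = c + c' := by
  have h1 := (AddSubgroup.add_mem_iff_of_index_two (wp2_index (k := k)) (a := c) (b := c')).2
    ⟨fun h2 => absurd h2 h, fun h2 => absurd h2 h'⟩
  exact h1

end AS

section
variable {F : Type*} [Field F] [NumberField F]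

/-- The symbol at `v`: `c` has the form `x² + x` modulo `v`. -/
def Sol (v : HeightOneSpectrum (𝓞 F)) (c : 𝓞 F) : Prop := ∃ x : 𝓞 F, x ^ 2 + x - c ∈ v.asIdeal

theorem sol_iff (v : HeightOneSpectrum (𝓞 F)) (c : 𝓞 F) :
    Sol v c ↔ ∃ x : 𝓞 F ⧸ v.asIdeal, x ^ 2 + x = Ideal.Quotient.mk v.asIdeal c := by
  constructor
  · rintro ⟨x, hx⟩
    refine ⟨Ideal.Quotient.mk v.asIdeal x, ?_⟩
    rw [← map_pow, ← map_add, ← sub_eq_zero, ← map_sub]
    exact Ideal.Quotient.eq_zero_iff_mem.2 hx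
  · rintro ⟨x, hx⟩
    obtain ⟨y, rfl⟩ := Ideal.Quotient.mk_surjective x
    refine ⟨y, ?_⟩
    rw [← map_pow, ← map_add, ← sub_eq_zero, ← map_sub] at hx
    exact Ideal.Quotient.eq_zero_iff_mem.1 hx

theorem sol_add {v : HeightOneSpectrum (𝓞 F)} (h2 : (2 : 𝓞 F) ∈ v.asIdeal) {c c' : 𝓞 F}
    (h : ¬ Sol v c) (h' : ¬ Sol v c') : Sol v (c + c') := by
  have hmax := v.isMaximal
  let _ : Field (𝓞 F ⧸ v.asIdeal) := Ideal.Quotient.field _
  have hfin : Finite (𝓞 F ⧸ v.asIdeal) := Ideal.finiteQuotientOfFreeOfNeBot _ v.ne_bot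
  have hchar : CharP (𝓞 F ⧸ v.asIdeal) 2 := by
    apply CharTwo.of_one_ne_zero_of_two_eq_zero one_ne_zero
    have := Ideal.Quotient.eq_zero_iff_mem.2 h2
    rwa [map_ofNat] at this
  rw [sol_iff] at h h' ⊢
  rw [map_add]
  exact wp2_add h h'

theorem sol_of_sub_mem {v : HeightOneSpectrum (𝓞 F)} {c c' : 𝓞 F} (h : c - c' ∈ v.asIdeal)
    (hc : Sol v c) : Sol v c' := by
  obtain ⟨x, hx⟩ := hc
  refine ⟨x, ?_⟩
  have := add_mem hx h
  rwa [sub_add_sub_cancel] at this

/-- An element which lies in all dyadic places is divisible by two. -/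
theorem two_dvd_of_mem (h : Unr2 F) (x : 𝓞 F)
    (hx : ∀ v : HeightOneSpectrum (𝓞 F), (2 : 𝓞 F) ∈ v.asIdeal → x ∈ v.asIdeal) :
    (2 : 𝓞 F) ∣ x := by
  have h20 : Ideal.span {(2 : 𝓞 F)} ≠ 0 := by
    intro h
    have := Ideal.span_singleton_eq_bot.mp h
    norm_num at this
  have hsq : Squarefree (Ideal.span {(2 : 𝓞 F)}) := by
    rw [squarefree_iff_no_irreducibles h20]
    intro P hP hPP
    have hprime : Prime P := hP.prime
    have hp : P.IsPrime := Ideal.isPrime_of_prime hprime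
    rw [← sq, Ideal.dvd_span_singleton] at hPP
    exact h ⟨P, hp, hprime.ne_zero⟩ (Ideal.pow_le_self two_ne_zero hPP) hPP
  have hrad : x ∈ (Ideal.span {(2 : 𝓞 F)}).radical := by
    rw [Ideal.radical_eq_sInf, Submodule.mem_sInf]
    rintro P ⟨hP, hp⟩
    have h2 : (2 : 𝓞 F) ∈ P := hP (Ideal.mem_span_singleton_self _)
    refine hx ⟨P, hp, ?_⟩ h2
    rintro rfl
    norm_num at h2
  obtain ⟨n, hn⟩ := hrad
  have h3 : Ideal.span {(2 : 𝓞 F)} ∣ Ideal.span {x} ^ n := by
    rw [Ideal.span_singleton_pow, Ideal.dvd_span_singleton]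
    exact hn
  have h4 := (isRadical_iff_squarefree_of_ne_zero h20).2 hsq n _ h3
  rw [Ideal.dvd_span_singleton, Ideal.mem_span_singleton] at h4
  exact h4

theorem finite_dyadic (F : Type*) [Field F] [NumberField F] :
    {v : HeightOneSpectrum (𝓞 F) | (2 : 𝓞 F) ∈ v.asIdeal}.Finite := by
  have h0 : Ideal.span {(2 : 𝓞 F)} ≠ 0 := by
    intro h
    have := Ideal.span_singleton_eq_bot.mp h
    norm_num at this
  refine (Ideal.finite_factors h0).subset fun v hv => ?_
  rw [Set.mem_setOf_eq, Ideal.dvd_span_singleton]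
  exact hv

/-- An idempotent modulo two. -/
theorem exists_idem (v : HeightOneSpectrum (𝓞 F)) :
    ∃ e : 𝓞 F, ((2 : 𝓞 F) ∈ v.asIdeal → e - 1 ∈ v.asIdeal) ∧
      ∀ v' : HeightOneSpectrum (𝓞 F), (2 : 𝓞 F) ∈ v'.asIdeal → v' ≠ v → e ∈ v'.asIdeal := by
  classical
  set S := (finite_dyadic F).toFinset with hS
  have hmemS : ∀ v, v ∈ S ↔ (2 : 𝓞 F) ∈ v.asIdeal := fun v => by
    rw [hS, Set.Finite.mem_toFinset]
    rfl
  obtain ⟨y, hy⟩ := IsDedekindDomain.exists_forall_sub_mem_ideal (s := S)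
    (fun v : HeightOneSpectrum (𝓞 F) => v.asIdeal) (fun _ => 1) (fun v' _ => v'.prime)
    (fun v₁ _ v₂ _ h h' => h (HeightOneSpectrum.ext h'))
    (fun v' => if v'.1 = v then (1 : 𝓞 F) else 0)
  refine ⟨y, fun h2 => ?_, fun v' h2 hne => ?_⟩
  · have := hy v ((hmemS v).2 h2)
    rwa [pow_one, if_pos rfl] at this
  · have := hy v' ((hmemS v').2 h2)
    rwa [pow_one, if_neg hne, sub_zero] at this

/-- The trace of a square modulo two. -/
theorem trace_sq (x : 𝓞 F) : Even (Algebra.trace ℤ (𝓞 F) (x ^ 2) + Algebra.trace ℤ (𝓞 F) x) := by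
  classical
  let b := Module.Free.chooseBasis ℤ (𝓞 F)
  set M := Algebra.leftMulMatrix b x with hM
  have h1 : Algebra.trace ℤ (𝓞 F) x = M.trace := Algebra.trace_eq_matrix_trace b x
  have h2 : Algebra.trace ℤ (𝓞 F) (x ^ 2) = (M ^ 2).trace := by
    rw [Algebra.trace_eq_matrix_trace b, map_pow]
  have h3 : ((M.map (Int.castRingHom (ZMod 2))) ^ 2).trace =
      (M.map (Int.castRingHom (ZMod 2))).trace ^ 2 := ZMod.trace_pow_card _
  have h4 : ∀ A : Matrix (Module.Free.ChooseBasisIndex ℤ (𝓞 F))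
      (Module.Free.ChooseBasisIndex ℤ (𝓞 F)) ℤ,
      (A.map (Int.castRingHom (ZMod 2))).trace = ((A.trace : ℤ) : ZMod 2) := by
    intro A
    rw [Matrix.trace, Matrix.trace, Int.cast_sum]
    rfl
  have h5 : (M.map (Int.castRingHom (ZMod 2))) ^ 2 = (M ^ 2).map (Int.castRingHom (ZMod 2)) := by
    rw [sq, sq, Matrix.map_mul]
  rw [h5, h4, h4] at h3
  rw [h1, h2, ← (ZMod.intCast_eq_zero_iff_even), Int.cast_add, h3]
  generalize ((M.trace : ℤ) : ZMod 2) = t
  revert t
  decide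

theorem unramified_at (h : Unr2 F) (v : HeightOneSpectrum (𝓞 F)) (h2 : (2 : 𝓞 F) ∈ v.asIdeal) :
    Algebra.IsUnramifiedAt ℤ v.asIdeal := by
  have hp : v.asIdeal.IsPrime := v.isPrime
  have hle : Ideal.map (algebraMap ℤ (𝓞 F)) (Ideal.span {(2 : ℤ)}) ≤ v.asIdeal := by
    rw [Ideal.map_span, Set.image_singleton, map_ofNat, Ideal.span_singleton_le_iff_mem]
    exact h2
  have hprime : (Ideal.span {(2 : ℤ)}).IsPrime :=
    (Ideal.span_singleton_prime two_ne_zero).2 Int.prime_two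
  have hmax : (Ideal.span {(2 : ℤ)}).IsMaximal := hprime.isMaximal (by simp)
  have hover : v.asIdeal.LiesOver (Ideal.span {(2 : ℤ)}) := by
    constructor
    have h3 : Ideal.span {(2 : ℤ)} ≤ v.asIdeal.under ℤ := Ideal.map_le_iff_le_comap.1 hle
    have h4 : v.asIdeal.under ℤ ≠ ⊤ := (inferInstance : (v.asIdeal.under ℤ).IsPrime).ne_top
    exact hmax.eq_of_le h4 h3
  rw [Algebra.isUnramifiedAt_iff_of_isDedekindDomain,
    ← Ideal.ramificationIdx'_eq_ramificationIdx (Ideal.span {(2 : ℤ)}) v.asIdeal (by simp)]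
  by_contra hne
  rw [← ne_eq, Ideal.ramificationIdx'_ne_one_iff hle, Ideal.map_span, Set.image_singleton,
    map_ofNat, Ideal.span_singleton_le_iff_mem] at hne
  exact h v h2 hne

theorem not_dvd_different (h : Unr2 F) (v : HeightOneSpectrum (𝓞 F))
    (h2 : (2 : 𝓞 F) ∈ v.asIdeal) : ¬ differentIdeal ℤ (𝓞 F) ≤ v.asIdeal := by
  have hp : v.asIdeal.IsPrime := v.isPrime
  rw [← Ideal.dvd_iff_le]
  exact not_dvd_differentIdeal_iff.2 (unramified_at h v h2)

/-- Every integer is congruent to an integer multiple of the idempotent, on the part of `v`. -/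
theorem exists_odd_trace (h : Unr2 F) (v : HeightOneSpectrum (𝓞 F))
    (h2 : (2 : 𝓞 F) ∈ v.asIdeal) (e : 𝓞 F) (he : e - 1 ∈ v.asIdeal)
    (he' : ∀ v' : HeightOneSpectrum (𝓞 F), (2 : 𝓞 F) ∈ v'.asIdeal → v' ≠ v → e ∈ v'.asIdeal) :
    ∃ c : 𝓞 F, ¬ Even (Algebra.trace ℤ (𝓞 F) (e * c)) := by
  by_contra hall
  push Not at hall
  apply not_dvd_different h v h2
  rw [differentialIdeal_le_iff (A := ℤ) (K := ℚ) (L := F) (B := 𝓞 F) v.ne_bot]
  rintro _ ⟨x, hx, rfl⟩
  have hx' : x ∈ ((v.asIdeal : FractionalIdeal (nonZeroDivisors (𝓞 F)) F)⁻¹) := hx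
  have hv0 : (v.asIdeal : FractionalIdeal (nonZeroDivisors (𝓞 F)) F) ≠ 0 := by
    rw [Ne, FractionalIdeal.coeIdeal_eq_zero]
    exact v.ne_bot
  rw [FractionalIdeal.mem_inv_iff hv0] at hx'
  have hmul : ∀ t ∈ v.asIdeal, ∃ y : 𝓞 F, (y : F) = x * (t : F) := by
    intro t ht
    have h3 := hx' (t : F) ((FractionalIdeal.mem_coeIdeal _).2 ⟨t, ht, rfl⟩)
    obtain ⟨y, hy⟩ := (FractionalIdeal.mem_one_iff _).1 h3
    exact ⟨y, hy⟩
  obtain ⟨y, hy⟩ := hmul 2 h2
  have h2F : ((2 : 𝓞 F) : F) = 2 := map_ofNat (algebraMap (𝓞 F) F) 2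
  have hy2 : (y : F) = 2 * x := by rw [hy, h2F]; ring
  -- `y` lies in all dyadic places different from `v`
  have hyv : ∀ v' : HeightOneSpectrum (𝓞 F), (2 : 𝓞 F) ∈ v'.asIdeal → v' ≠ v → y ∈ v'.asIdeal := by
    intro v' h2' hne
    obtain ⟨e', he1, he2⟩ := exists_idem v'
    have h4 : e' ∈ v.asIdeal := he2 v h2 hne.symm
    obtain ⟨z, hz⟩ := hmul e' h4
    have h5 : y * e' = 2 * z := by
      apply RingOfIntegers.coe_injective
      rw [map_mul, map_mul]
      change (y : F) * (e' : F) = ((2 : 𝓞 F) : F) * (z : F)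
      rw [hy2, h2F, hz]
      ring
    have h6 : y * e' ∈ v'.asIdeal := by
      rw [h5]
      exact Ideal.mul_mem_right _ _ h2'
    have h7 := he1 h2'
    have h8 : y = y * e' - y * (e' - 1) := by ring
    rw [h8]
    exact sub_mem h6 (Ideal.mul_mem_left _ _ h7)
  have hdvd : (2 : 𝓞 F) ∣ y - e * y := by
    apply two_dvd_of_mem h
    intro v' h2'
    by_cases hne : v' = v
    · subst hne
      have h8 : y - e * y = -((e - 1) * y) := by ring
      rw [h8]
      exact neg_mem (Ideal.mul_mem_right _ _ he)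
    · exact sub_mem (hyv v' h2' hne) (Ideal.mul_mem_left _ _ (hyv v' h2' hne))
  obtain ⟨z, hz⟩ := hdvd
  obtain ⟨m, hm⟩ := hall y
  have htr : Algebra.trace ℤ (𝓞 F) y = m + m + 2 * Algebra.trace ℤ (𝓞 F) z := by
    have h9 : y = e * y + (2 : ℤ) • z := by
      rw [zsmul_eq_mul]
      push_cast
      linear_combination hz
    calc Algebra.trace ℤ (𝓞 F) y = Algebra.trace ℤ (𝓞 F) (e * y + (2 : ℤ) • z) := by rw [← h9]
      _ = _ := by rw [map_add, map_smul, hm, smul_eq_mul]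
  have htrF : Algebra.trace ℚ F (y : F) = ((Algebra.trace ℤ (𝓞 F) y : ℤ) : ℚ) :=
    Algebra.trace_localization ℤ (nonZeroDivisors ℤ) y
  rw [Submodule.mem_one]
  refine ⟨m + Algebra.trace ℤ (𝓞 F) z, ?_⟩
  change ((m + Algebra.trace ℤ (𝓞 F) z : ℤ) : ℚ) = Algebra.trace ℚ F x
  have h10 : Algebra.trace ℚ F (y : F) = 2 * Algebra.trace ℚ F x := by
    rw [hy2]
    have : (2 : F) * x = (2 : ℚ) • x := by
      rw [Algebra.smul_def, map_ofNat]
    rw [this, map_smul, smul_eq_mul]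
  rw [htrF, htr] at h10
  push_cast at h10 ⊢
  linarith

/-- The trace of the `v`-part is even if and only if the symbol at `v` is trivial. -/
theorem even_trace_iff (h : Unr2 F) (v : HeightOneSpectrum (𝓞 F))
    (h2 : (2 : 𝓞 F) ∈ v.asIdeal) (e : 𝓞 F) (he : e - 1 ∈ v.asIdeal)
    (he' : ∀ v' : HeightOneSpectrum (𝓞 F), (2 : 𝓞 F) ∈ v'.asIdeal → v' ≠ v → e ∈ v'.asIdeal)
    (c : 𝓞 F) : Even (Algebra.trace ℤ (𝓞 F) (e * c)) ↔ Sol v c := by
  have key : ∀ c : 𝓞 F, Sol v c → Even (Algebra.trace ℤ (𝓞 F) (e * c)) := by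
    rintro c ⟨x, hx⟩
    have hdvd : (2 : 𝓞 F) ∣ e * c - ((e * x) ^ 2 + e * x) := by
      apply two_dvd_of_mem h
      intro v' h2'
      by_cases hne : v' = v
      · subst hne
        have h8 : e * c - ((e * x) ^ 2 + e * x) =
            -(e * (x ^ 2 + x - c)) - (e * x ^ 2) * (e - 1) := by ring
        rw [h8]
        exact sub_mem (neg_mem (Ideal.mul_mem_left _ _ hx)) (Ideal.mul_mem_left _ _ he)
      · have h9 := he' v' h2' hne
        have h8 : e * c - ((e * x) ^ 2 + e * x) = e * (c - e * x ^ 2 - x) := by ring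
        rw [h8]
        exact Ideal.mul_mem_right _ _ h9
    obtain ⟨z, hz⟩ := hdvd
    have h9 : e * c = (e * x) ^ 2 + e * x + (2 : ℤ) • z := by
      rw [zsmul_eq_mul]
      push_cast
      linear_combination hz
    rw [h9, map_add, map_add, map_smul, smul_eq_mul]
    exact (trace_sq (e * x)).add ⟨Algebra.trace ℤ (𝓞 F) z, by ring⟩
  refine ⟨fun hev => ?_, key c⟩
  by_contra hns
  obtain ⟨c0, hc0⟩ := exists_odd_trace h v h2 e he he'
  have hns0 : ¬ Sol v c0 := fun h3 => hc0 (key c0 h3)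
  have h4 := key _ (sol_add h2 hns hns0)
  rw [mul_add, map_add, Int.even_add] at h4
  exact hc0 (h4.1 hev)

/-- The sign of an integer modulo two. -/
def sg (n : ℤ) : ℤ := if Even n then 1 else -1

theorem sg_add (a b : ℤ) : sg (a + b) = sg a * sg b := by
  unfold sg
  by_cases ha : Even a
  · by_cases hb : Even b
    · rw [if_pos ha, if_pos hb, if_pos (ha.add hb), one_mul]
    · rw [if_pos ha, if_neg hb, if_neg (fun h => hb ((Int.even_add.1 h).1 ha)), one_mul]
  · by_cases hb : Even b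
    · rw [if_neg ha, if_pos hb, if_neg (fun h => ha ((Int.even_add.1 h).2 hb)), mul_one]
    · rw [if_neg ha, if_neg hb, if_pos (Int.even_add.2 ⟨fun h => absurd h ha, fun h => absurd h hb⟩)]
      norm_num

theorem sg_sum {ι : Type*} (s : Finset ι) (f : ι → ℤ) : sg (∑ i ∈ s, f i) = ∏ i ∈ s, sg (f i) := by
  classical
  induction s using Finset.induction_on with
  | empty => simp [sg]
  | insert i s hi ih => rw [Finset.sum_insert hi, Finset.prod_insert hi, sg_add, ih]

open Classical in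
/-- The symbol at `v` as a sign. -/
noncomputable def sol (v : HeightOneSpectrum (𝓞 F)) (c : 𝓞 F) : ℤ := if Sol v c then 1 else -1

/-- The product of the symbols at the dyadic places is the parity of the trace. -/
theorem prod_sol (h : Unr2 F) (c : 𝓞 F) (D : Finset (HeightOneSpectrum (𝓞 F)))
    (hD : ∀ v, v ∈ D ↔ (2 : 𝓞 F) ∈ v.asIdeal) :
    ∏ v ∈ D, sol v c = sg (Algebra.trace ℤ (𝓞 F) c) := by
  classical
  choose e he he' using fun v : HeightOneSpectrum (𝓞 F) => exists_idem v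
  have h1 : ∀ v ∈ D, sol v c = sg (Algebra.trace ℤ (𝓞 F) (e v * c)) := by
    intro v hv
    have h2 := (hD v).1 hv
    have h3 := even_trace_iff h v h2 (e v) (he v h2) (he' v) c
    unfold sol sg
    by_cases hs : Sol v c
    · rw [if_pos hs, if_pos (h3.2 hs)]
    · rw [if_neg hs, if_neg (fun h4 => hs (h3.1 h4))]
  rw [Finset.prod_congr rfl h1, ← sg_sum, ← map_sum]
  have hdvd : (2 : 𝓞 F) ∣ ∑ v ∈ D, e v * c - c := by
    apply two_dvd_of_mem h
    intro v h2
    rw [← Finset.add_sum_erase D _ ((hD v).2 h2)]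
    have h8 : e v * c + ∑ x ∈ D.erase v, e x * c - c =
        (e v - 1) * c + ∑ x ∈ D.erase v, e x * c := by ring
    rw [h8]
    refine add_mem (Ideal.mul_mem_right _ _ (he v h2)) (Ideal.sum_mem _ fun x hx => ?_)
    exact Ideal.mul_mem_right _ _ (he' x v h2 (fun h9 => by
      rw [h9] at hx
      exact Finset.notMem_erase _ _ hx))
  obtain ⟨z, hz⟩ := hdvd
  have h9 : ∑ v ∈ D, e v * c = c + (2 : ℤ) • z := by
    rw [zsmul_eq_mul]
    push_cast
    linear_combination hz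
  rw [h9, map_add, map_smul, smul_eq_mul, sg_add]
  have h10 : sg (2 * Algebra.trace ℤ (𝓞 F) z) = 1 := by
    unfold sg
    rw [if_pos ⟨_, two_mul _⟩]
  rw [h10, mul_one]

end

end Pool.Agent.Lib.MP_1a91b9_ntT.S10
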