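import Pool.Agent.Lib.MP_1a91b9_ntT.S4.Dyadic
import Pool.Agent.Lib.MP_1a91b9_ntT.S10.TraceTwo
import Pool.Agent.Lib.MP_1a91b9_ntT.S4.Quad
import Pool.Agent.Lib.MP_1a91b9_ntT.S4.Ideal
import Pool.Agent.Lib.MP_1a91b9_ntT.S4.FactorB

/-!
# S10: the fields of the tower are unramified at the dyadic places
-/

set_option autoImplicit false

namespace Pool.Agent.Lib.MP_1a91b9_ntT.S10

open NumberField IsDedekindDomain Pool.Agent.Lib.MP_1a91b9_nt
open Pool.Agent.Lib.MP_1a91b9_ntT.S4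

universe u

theorem unr2_base (F : Type u) [Field F] [NumberField F] [Algebra K F]
    (h : Function.Bijective (algebraMap K F)) : Unr2 F := by
  intro v hv h2
  have hdeg : Module.finrank ℚ F = 2 := by
    rw [← Module.finrank_mul_finrank ℚ K F, u4_finrank,
      ← LinearEquiv.finrank_eq (LinearEquiv.ofBijective (Algebra.linearMap K F) h),
      Module.finrank_self]
  have hζ : (algebraMap K F om) ^ 2 + algebraMap K F om + 1 = 0 := by
    rw [← map_pow, ← map_add, ← map_one (algebraMap K F), ← map_add, om_eq, map_zero]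
  have hint : IsIntegral ℤ (algebraMap K F om) := by
    refine ⟨Polynomial.X ^ 2 + Polynomial.X + 1, ?_, ?_⟩
    · monicity!
    · simpa using hζ
  have hz : (⟨_, hint⟩ : 𝓞 F) ^ 2 + ⟨_, hint⟩ + 1 = 0 := by
    apply RingOfIntegers.ext
    exact hζ
  have h3 : (3 : 𝓞 F) ∉ v.asIdeal := by
    intro h3
    apply v.isPrime.ne_top
    rw [Ideal.eq_top_iff_one]
    have e : (1 : 𝓞 F) = 3 - 2 := by norm_num
    rw [e]
    exact Ideal.sub_mem _ h3 hv
  have hd := u4_three_dvd v h3 _ hz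
  have hq2 : 2 ≤ nrm v := by
    have := finite_residue v
    exact Finite.one_lt_card
  have hq4 : 4 ≤ nrm v := by
    obtain ⟨k, hk⟩ := hd
    omega
  have hdvd : v.asIdeal ^ 2 ∣ Ideal.span {((2 : ℕ) : 𝓞 F)} := by
    rw [Ideal.dvd_span_singleton, Nat.cast_ofNat]
    exact h2
  have h5 := map_dvd Ideal.absNorm hdvd
  rw [map_pow, Ideal.absNorm_span_natCast, RingOfIntegers.rank, hdeg, ← nrm_eq] at h5
  have h6 := Nat.le_of_dvd (by norm_num) h5
  nlinarith

theorem unr2_step (F F' : Type u) [Field F] [NumberField F] [Field F']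
    [NumberField F'] [Algebra F F'] (δ : 𝓞 F) (hodd : IsCoprime δ 2)
    (hsq : ∃ a b : 𝓞 F, δ = a ^ 2 + 4 * b) (x : F') (hx : x ^ 2 = algebraMap F F' δ)
    (hn : ¬ ∃ y : F, algebraMap F F' y = x)
    (hgen : ∀ z : F', ∃ a b : F, z = algebraMap F F' a + algebraMap F F' b * x)
    (h : Unr2 F) : Unr2 F' := by
  have hL : Module.finrank F F' = 2 := finrank_step _ x hx hn hgen
  intro w hw h2
  set v := w.under (𝓞 F) with hv
  have h2v : (2 : 𝓞 F) ∈ v.asIdeal := by
    change algebraMap (𝓞 F) (𝓞 F') 2 ∈ w.asIdeal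
    rw [map_ofNat]
    exact hw
  have hδv : δ ∉ v.asIdeal := by
    intro h1
    obtain ⟨s, t, hst⟩ := hodd
    apply v.isPrime.ne_top
    rw [Ideal.eq_top_iff_one, ← hst]
    exact Ideal.add_mem _ (Ideal.mul_mem_left _ _ h1) (Ideal.mul_mem_left _ _ h2v)
  obtain ⟨a, b, hab⟩ := hsq
  have hpm := splitChar_dyadic hL δ a b hab x hx hgen v hδv
  have hquad : Algebra.IsQuadraticExtension F F' := ⟨hL⟩
  have hgal : IsGalois F F' := inferInstance
  have hvp : v.asIdeal.IsPrime := v.isPrime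
  have hvm : v.asIdeal.IsMaximal := v.isMaximal
  have i1 : w.asIdeal.IsPrime := w.isPrime
  have i2 : w.asIdeal.LiesOver v.asIdeal := ⟨rfl⟩
  have hfund := Ideal.ncard_primesOver_mul_ramificationIdxIn_mul_inertiaDegIn v.asIdeal (𝓞 F')
    Gal(F'/F)
  have hcard : Nat.card Gal(F'/F) = 2 := by
    rw [IsGalois.card_aut_eq_finrank, hL]
  rw [hcard] at hfund
  have hc : Fintype.card (Over F' v) = (v.asIdeal.primesOver (𝓞 F')).ncard := by
    rw [← card_over_eq, Nat.card_eq_fintype_card]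
  have hin : w.asIdeal.inertiaDeg (𝓞 F) = Ideal.inertiaDegIn v.asIdeal (𝓞 F') :=
    (Ideal.inertiaDegIn_eq_inertiaDeg v.asIdeal w.asIdeal Gal(F'/F)).symm
  have he : Ideal.ramificationIdxIn v.asIdeal (𝓞 F') = 1 := by
    rcases quad_cases hL v with ⟨c1, c2⟩ | ⟨c1, c2⟩ | ⟨c1, c2⟩
    · have c3 := (c2 ⟨w, rfl⟩).1
      change w.asIdeal.inertiaDeg (𝓞 F) = 1 at c3
      rw [← hc, c1, ← hin, c3] at hfund
      omega
    · have c3 := (c2 ⟨w, rfl⟩).1
      change w.asIdeal.inertiaDeg (𝓞 F) = 2 at c3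
      rw [← hc, c1, ← hin, c3] at hfund
      omega
    · exfalso
      have c3 : splitChar F' v = 0 := by
        rw [splitChar, if_neg (by omega), if_neg]
        intro h4
        have := h4 ⟨w, rfl⟩
        rw [(c2 ⟨w, rfl⟩).1] at this
        omega
      rcases hpm with h5 | h5 <;> rw [c3] at h5 <;> norm_num at h5
  have he' : Ideal.ramificationIdxIn v.asIdeal (𝓞 F') = v.asIdeal.ramificationIdx' w.asIdeal := by
    rw [Ideal.ramificationIdx'_eq_ramificationIdx]
    · exact Ideal.ramificationIdxIn_eq_ramificationIdx v.asIdeal w.asIdeal Gal(F'/F)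
    · exact v.ne_bot
  have hval := HeightOneSpectrum.intValuation_liesOver v w (2 : 𝓞 F)
  have e2 : algebraMap (𝓞 F) (𝓞 F') 2 = 2 := map_ofNat _ 2
  rw [← he', he, pow_one, e2] at hval
  have e1 := intVal_eq v (2 : 𝓞 F) 1 (by rw [pow_one]; exact h2v) (h v h2v)
  rw [e1] at hval
  rw [mem_pow_iff w (2 : 𝓞 F') 1 2 hval.symm] at h2
  omega

/-- The fields of the tower are unramified at `2`. -/
theorem unr2_tower (F : Type u) [Field F] [NumberField F] [Algebra K F] (h : TowerK F) :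
    Unr2 F := by
  induction h with
  | base F h => exact unr2_base F h
  | step F F' δ hδ x hx hn hgen h ih => exact unr2_step F F' δ hδ.odd hδ.sq x hx hn hgen ih

end Pool.Agent.Lib.MP_1a91b9_ntT.S10
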