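import Pool.Agent.Lib.MP_1a91b9_ntT.S10.Final0
import Pool.Agent.Lib.MP_1a91b9_ntT.S10.Unr2
import Pool.Agent.Lib.MP_1a91b9_ntT.S4.Twist
import Pool.Agent.Lib.MP_1a91b9_ntT.TW.Half

/-!
# S10: the L-series of `ψbar_F χ` is entire
-/

set_option autoImplicit false

namespace Pool.Agent.Lib.MP_1a91b9_ntT.S10

open IsDedekindDomain NumberField Pool.Agent.Lib.MP_1a91b9_nt
open Pool.Agent.Lib.MP_1a91b9_ntT.S4 Pool.Agent.Lib.MP_1a91b9_ntT.S7 LSeries

universe u

/-- The L-series of `ψbar_F χ` is entire and its normalised value at `1` is a two-adic unit. -/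
def TwistEnt (Ω : ℂ) (F F' : Type u) [Field F] [NumberField F] [Algebra K F] [Field F']
    [NumberField F'] [Algebra F F'] : Prop :=
  ∃ H : ℂ → ℂ, Differentiable ℂ H ∧
    (∀ s : ℂ, 2 < s.re → H s = Lf (psibChi (F := F) F') s) ∧
    ∀ W : ValuationSubring ℂ, (2 : ℂ)⁻¹ ∉ W → W.valuation (H 1 / Ω ^ (Module.finrank K F)) = 1

section
variable {F F' : Type u} [Field F] [NumberField F] [Field F'] [NumberField F'] [Algebra F F']
  [Algebra K F]

theorem twist_entire (hcrit : Crit F) (honly : Only F) (hunr : Unr2 F) (δ : 𝓞 F) (hδ : Adm F δ) (x : F') (hx : x ^ 2 = algebraMap F F' δ)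
    (hn : ¬ ∃ y : F, algebraMap F F' y = x)
    (hgen : ∀ z : F', ∃ a b : F, z = algebraMap F F' a + algebraMap F F' b * x)
    {Ω : ℂ} (hV : ValueProp Ω F) (hU : UnitProp Ω F) : TwistEnt Ω F F' := by
  classical
  have hL : Module.finrank F F' = 2 := finrank_step _ x hx hn hgen
  obtain ⟨m, hm0, hm1, hm3, hm2, hmv⟩ := exists_bad δ hδ.odd
  have htc : IsTotallyComplex F := totallyComplex_of_K
  have hrec : Reciprocity δ (splitChar F') :=
    S1.reciprocity δ hδ.odd hδ.sq (splitChar F') (isChi_splitChar hL δ x hx hn)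
  obtain ⟨ψ, ψ1, ψmul, ψ0, ψpm, ψray, ψval⟩ := exists_rayChar hL δ x hx hn hrec m hm0 hm1 hm2
    (fun v hv => (hmv v).mpr (Or.inr hv))
  obtain ⟨ι, hι, J, G, hG, hJ, hGW, hfam⟩ := exists_family hV m hm0 hm1 hm3 hm2
  obtain ⟨L, hLd, hL1, hLW⟩ := hU
  -- the bad places
  have hBfin : {v : HeightOneSpectrum (𝓞 F) | m ≤ v.asIdeal}.Finite := by
    refine (Ideal.finite_factors hm0).subset fun v hv => ?_
    exact Ideal.dvd_iff_le.mpr hv
  set B := hBfin.toFinset with hBdef
  have hB : ∀ v, v ∈ B ↔ m ≤ v.asIdeal := fun v => by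
    rw [hBdef, Set.Finite.mem_toFinset]; rfl
  -- the dyadic places
  have h20 : Ideal.span {(2 : 𝓞 F)} ≠ 0 := by
    intro h
    have := Ideal.span_singleton_eq_bot.mp h
    norm_num at this
  have hDfin : {v : HeightOneSpectrum (𝓞 F) | (2 : 𝓞 F) ∈ v.asIdeal}.Finite := by
    refine (Ideal.finite_factors h20).subset fun v hv => ?_
    exact Ideal.dvd_span_singleton.mpr hv
  set D := hDfin.toFinset with hDdef
  have hD : ∀ v, v ∈ D ↔ (2 : 𝓞 F) ∈ v.asIdeal := fun v => by
    rw [hDdef, Set.Finite.mem_toFinset]; rfl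
  -- the two entire functions
  set G1 : ℂ → ℂ := fun s => ∑ i, (ψ (J i) : ℂ) * G i s with hG1
  set G0 : ℂ → ℂ := fun s => ∑ i, G i s with hG0
  have hG1d : Differentiable ℂ G1 :=
    Differentiable.fun_sum fun i _ => (differentiable_const _).mul (hG i)
  have hG0d : Differentiable ℂ G0 := Differentiable.fun_sum fun i _ => hG i
  have hψn : ∀ I, ‖(ψ I : ℂ)‖ ≤ 1 := by
    intro I
    by_cases hI : IsCoprime I m
    · rcases ψpm I hI with h | h <;> rw [h] <;> simp
    · rw [ψ0 I hI]; simp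
  have hψc : ∀ I, ψ I = 0 ∨ ψ I = 1 ∨ ψ I = -1 := by
    intro I
    by_cases hI : IsCoprime I m
    · exact Or.inr (ψpm I hI)
    · exact Or.inl (ψ0 I hI)
  have hG1L : ∀ s : ℂ, 2 < s.re → Lf (fun I => psibC F I * (ψ I : ℂ)) s = G1 s := fun s hs =>
    hfam (fun I => (ψ I : ℂ)) (fun I hI => by rw [ψ0 I hI, Int.cast_zero]) hψn
      (fun I I' h => by rw [ψray I I' h]) s hs
  have hG0L : ∀ s : ℂ, 2 < s.re → Lf (fun I => psibC F I * indC m I) s = G0 s := by
    intro s hs
    rw [hfam (indC m) (fun I hI => indC_of_not hI) (norm_indC_le m) (indC_ray m) s hs]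
    refine Finset.sum_congr rfl fun i _ => ?_
    rw [indC_of (hJ i), one_mul]
  -- identity of entire functions
  have id1 : G0 = fun s => L s * ∏ v ∈ B, (1 - psibC F v.asIdeal *
      (Ideal.absNorm v.asIdeal : ℂ) ^ (-s)) := by
    refine entire_eq hG0d (hLd.mul (differentiable_euler B _)) fun s hs => ?_
    rw [← hG0L s hs, Lf_indC m B hB s hs, hL1 s hs]
  -- the law at the dyadic places
  have hRC : IsRC F' m ψ := ⟨ψ1, ψmul, ψ0, ψpm, ψray, ψval⟩
  have hdy : ∀ v ∈ D, ψ v.asIdeal = splitChar F' v := fun v hv =>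
    dyadic_law hcrit honly hunr hL δ hδ.odd hδ.sq x hx hn hgen hRC hm0 hm2
      (fun w hw => (hmv w).mpr (Or.inr hw)) v ((hD v).mp hv)
  have hden : ∀ s : ℂ, 1 / 2 < s.re → ∏ v ∈ D, (1 - psibC F v.asIdeal * (splitChar F' v : ℂ) *
        (Ideal.absNorm v.asIdeal : ℂ) ^ (-s)) ≠ 0 := fun s hs =>
    Finset.prod_ne_zero_iff.mpr fun v _ => euler_chi_ne_zero _ (splitChar_cases v) v s hs
  refine ⟨G1, hG1d, fun s hs => ?_, fun W hW => ?_⟩
  · have e1 := Lf_rayChar hL δ x hx m (fun v hv => (hmv v).mp hv) ψ ψ1 ψmul ψ0 ψpm ψval D hD s hs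
    rw [hG1L s hs] at e1
    have e2 : ∏ v ∈ D, (1 - psibC F v.asIdeal * (ψ v.asIdeal : ℂ) *
        (Ideal.absNorm v.asIdeal : ℂ) ^ (-s)) = ∏ v ∈ D, (1 - psibC F v.asIdeal *
        (splitChar F' v : ℂ) * (Ideal.absNorm v.asIdeal : ℂ) ^ (-s)) :=
      Finset.prod_congr rfl fun v hv => by rw [hdy v hv]
    rw [e2] at e1
    exact mul_right_cancel₀ (hden s (by linarith)) e1.symm
  set n := Module.finrank K F with hn_def
  -- value of `G0`
  have v0 : W.valuation (G0 1 / Ω ^ n) = 1 := by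
    rw [id1]
    change W.valuation (L 1 * _ / Ω ^ n) = 1
    rw [mul_div_right_comm, map_mul, hLW W hW, one_mul, map_prod]
    refine Finset.prod_eq_one fun v hv => ?_
    rw [hB, hmv] at hv
    by_cases h3 : (3 : 𝓞 F) ∈ v.asIdeal
    · rw [psibC_three v h3, zero_mul, sub_zero, map_one]
    · have ho : OddAt v δ := hv.resolve_left h3
      exact val_euler_odd W hW v h3 (odd_coprime_two δ hδ.odd v ho) (hδ.bad v h3 ho)
  -- value of `G1`
  have v1 : W.valuation (G1 1 / Ω ^ n) = 1 := by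
    have e : G1 1 / Ω ^ n = G0 1 / Ω ^ n + ∑ i, ((ψ (J i) : ℂ) - 1) * (G i 1 / Ω ^ n) := by
      rw [hG1, hG0]
      simp only [Finset.sum_div, ← Finset.sum_add_distrib]
      refine Finset.sum_congr rfl fun i _ => ?_
      ring
    rw [e]
    refine val_unit_add W v0 ?_
    refine Valuation.map_sum_lt _ one_ne_zero fun i _ => ?_
    rw [map_mul]
    have h1 : W.valuation ((ψ (J i) : ℂ) - 1) < 1 := by
      rcases ψpm _ (hJ i) with h | h
      · rw [h, Int.cast_one, sub_self, map_zero]; exact zero_lt_one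
      · rw [h]
        have e : (((-1 : ℤ) : ℂ) - 1) = -2 := by push_cast; norm_num
        rw [e, Valuation.map_neg]
        exact val_two W hW
    exact mul_lt_one_of_lt_of_le h1 (hGW i W hW)
  exact v1

end


/-- The L-series of `W` is entire and does not vanish at `1`. -/
def TwistGoodE {N : Type u} [Field N] [NumberField N] (W : WeierstrassCurve N) : Prop :=
  ∃ g : ℂ → ℂ, Differentiable ℂ g ∧
    (∀ s : ℂ, 3 / 2 < s.re → g s = W.LSeries s) ∧ g 1 ≠ 0

section A
variable {F F' : Type u} [Field F] [NumberField F] [Field F'] [NumberField F'] [Algebra F F']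
  [Algebra K F]

theorem goodE_A {Ω : ℂ} (W : WeierstrassCurve F) (hT : TwistLoc F' W)
    (hU : TwistEnt Ω F F') (hW : ∃ V : ValuationSubring ℂ, (2 : ℂ)⁻¹ ∉ V) : TwistGoodE W := by
  obtain ⟨H, hH, hH1, hHW⟩ := hU
  obtain ⟨V, hV⟩ := hW
  have hne := UnitProp.ne_zero (hHW V hV)
  have hg : Differentiable ℂ fun s => (starRingEnd ℂ) (H ((starRingEnd ℂ) s)) * H s :=
    (differentiable_conj_conj hH).mul hH
  refine ⟨_, hg, TW.half_on W (fun s hs => ?_) hg.differentiableOn fun s hs => ?_, ?_⟩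
  · have hp := hasSum_coefI_of_le (psiChi (F := F) F') psiChi_one psiChi_mul norm_psiChi_le
    have hq := hasSum_coefI_of_le (psibChi (F := F) F') psibChi_one psibChi_mul norm_psibChi_le
    exact (half_plane W (LSeries.convolution (coefI (psiChi (F := F) F'))
      (coefI (psibChi (F := F) F')))
      (fun s hs => ((hp s hs).convolution (hq s hs)).LSeriesSummable)
      (fun s hs => by
        have hs' : 3 / 2 < s.re := by linarith
        rw [LSeries_twist_A W hT s hs, ((hp s hs').convolution (hq s hs')).LSeries_eq]) s hs).1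
  · change (starRingEnd ℂ) (H ((starRingEnd ℂ) s)) * H s = _
    rw [LSeries_twist_A W hT s hs, hH1 s hs, hH1 _ (by rw [Complex.conj_re]; exact hs),
      ← Lf_conj_chi]
  · change (starRingEnd ℂ) (H ((starRingEnd ℂ) 1)) * H 1 ≠ 0
    rw [map_one]
    exact mul_ne_zero ((_root_.map_ne_zero _).mpr hne) hne

end A

section B
variable {N M F F' : Type u} [Field N] [NumberField N] [Field M] [NumberField M] [Field F]
  [NumberField F] [Field F'] [NumberField F'] [Algebra N F] [Algebra F F'] [Algebra N F']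
  [IsScalarTower N F F'] [Algebra N M] [Algebra M F'] [IsScalarTower N M F'] [Algebra K F]

theorem goodE_B (hF : Module.finrank N F = 2) (hM : Module.finrank N M = 2)
    (hFF : Module.finrank F F' = 2) (hMF : Module.finrank M F' = 2)
    (hn : ∀ x : N, algebraMap N F x ≠ algebraMap K F om)
    (hnM : ∀ x : M, algebraMap M F' x ≠ algebraMap F F' (algebraMap K F om))
    (h : NoCube3 N) (W : WeierstrassCurve N) (hT : TwistLoc M W) {Ω : ℂ}
    (hU : TwistEnt Ω F F') (hW : ∃ V : ValuationSubring ℂ, (2 : ℂ)⁻¹ ∉ V) : TwistGoodE W := by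
  obtain ⟨H, hH, hH1, hHW⟩ := hU
  obtain ⟨V, hV⟩ := hW
  refine ⟨H, hH, TW.half_on W (fun s hs => ?_) hH.differentiableOn fun s hs => ?_,
    UnitProp.ne_zero (hHW V hV)⟩
  · have hq := hasSum_coefI_of_le (psibChi (F := F) F') psibChi_one psibChi_mul norm_psibChi_le
    exact (half_plane W (coefI (psibChi (F := F) F'))
      (fun s hs => (hq s hs).LSeriesSummable)
      (fun s hs => by
        rw [LSeries_twist_B hF hM hFF hMF hn hnM h W hT s hs, (hq s (by linarith)).LSeries_eq])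
      s hs).1
  · rw [hH1 s hs, LSeries_twist_B hF hM hFF hMF hn hnM h W hT s hs]

end B

end Pool.Agent.Lib.MP_1a91b9_ntT.S10
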