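import Pool.Agent.Lib.MP_1a91b9_ntT.S10.Law
import Pool.Agent.Lib.MP_1a91b9_ntT.DY.Two

/-!
# S10: the quadratic symbol at the odd places is multiplicative
-/

set_option autoImplicit false

namespace Pool.Agent.Lib.MP_1a91b9_ntT.S10

open NumberField IsDedekindDomain Pool.Agent.Lib.MP_1a91b9_nt
open Pool.Agent.Lib.MP_1a91b9_ntT.S4

universe u

/-- squares of a finite field of odd characteristic -/
theorem isSquare_mul_iff {k : Type*} [Field k] [Finite k] (h2 : (2 : k) ≠ 0) (x y : k)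
    (hx : x ≠ 0) (hy : y ≠ 0) : IsSquare (x * y) ↔ (IsSquare x ↔ IsSquare y) := by
  classical
  have := Fintype.ofFinite k
  have e1 := quadraticChar_one_iff_isSquare hx
  have e2 := quadraticChar_one_iff_isSquare hy
  have e3 := quadraticChar_one_iff_isSquare (mul_ne_zero hx hy)
  rw [map_mul] at e3
  rw [← e1, ← e2, ← e3]
  rcases quadraticChar_dichotomy hx with h | h <;> rcases quadraticChar_dichotomy hy with h' | h' <;>
    rw [h, h'] <;> norm_num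

section
variable {F : Type u} [Field F] [NumberField F]

theorem not_oddAt_even (v : HeightOneSpectrum (𝓞 F)) (δ : 𝓞 F) (hδ : δ ≠ 0) (h : ¬ OddAt v δ) :
    ∃ k : ℕ, δ ∈ v.asIdeal ^ (2 * k) ∧ δ ∉ v.asIdeal ^ (2 * k + 1) := by
  obtain ⟨n, hn1, hn2⟩ := exists_ord v δ hδ
  rcases Nat.even_or_odd' n with ⟨k, hk | hk⟩
  · exact ⟨k, by rw [← hk]; exact hn1, by rw [← hk]; exact hn2⟩
  · subst hk
    exact absurd ⟨k, hn1, hn2⟩ h

/-- the order of a product -/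
theorem ord_mul (v : HeightOneSpectrum (𝓞 F)) (x y : 𝓞 F) (n n' : ℕ)
    (h1 : x ∈ v.asIdeal ^ n) (h2 : x ∉ v.asIdeal ^ (n + 1)) (h1' : y ∈ v.asIdeal ^ n')
    (h2' : y ∉ v.asIdeal ^ (n' + 1)) :
    x * y ∈ v.asIdeal ^ (n + n') ∧ x * y ∉ v.asIdeal ^ (n + n' + 1) := by
  have e : v.intValuation (x * y) = WithZero.exp (-((n + n' : ℕ) : ℤ)) := by
    rw [map_mul, intVal_eq v x n h1 h2, intVal_eq v y n' h1' h2', ← WithZero.exp_add]
    congr 1
    push_cast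
    ring
  rw [mem_pow_iff v _ (n + n') _ e, mem_pow_iff v _ (n + n') _ e]
  omega

theorem not_oddAt_of_even (v : HeightOneSpectrum (𝓞 F)) (δ : 𝓞 F) (k : ℕ)
    (h1 : δ ∈ v.asIdeal ^ (2 * k)) (h2 : δ ∉ v.asIdeal ^ (2 * k + 1)) : ¬ OddAt v δ := by
  rintro ⟨j, h3, h4⟩
  have := ord_unique v δ _ _ h1 h2 h3 h4
  omega

theorem not_oddAt_mul (v : HeightOneSpectrum (𝓞 F)) (δ δ' : 𝓞 F) (hδ : δ ≠ 0) (hδ' : δ' ≠ 0)
    (h : ¬ OddAt v δ) (h' : ¬ OddAt v δ') : ¬ OddAt v (δ * δ') := by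
  obtain ⟨k, h1, h2⟩ := not_oddAt_even v δ hδ h
  obtain ⟨k', h1', h2'⟩ := not_oddAt_even v δ' hδ' h'
  obtain ⟨h3, h4⟩ := ord_mul v δ δ' _ _ h1 h2 h1' h2'
  refine not_oddAt_of_even v (δ * δ') (k + k') ?_ ?_
  · rw [mul_add]; exact h3
  · rw [mul_add]; exact h4

/-- The symbol at an odd place is multiplicative on the elements of even order. -/
theorem chi_mul (v : HeightOneSpectrum (𝓞 F)) (h2v : (2 : 𝓞 F) ∉ v.asIdeal) (δ δ' : 𝓞 F)
    (hδ : δ ≠ 0) (hδ' : δ' ≠ 0) (h : ¬ OddAt v δ) (h' : ¬ OddAt v δ') :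
    S1.chi v δ * S1.chi v δ' = S1.chi v (δ * δ') := by
  have h3 := not_oddAt_mul v δ δ' hδ hδ' h h'
  obtain ⟨k, h1, h2⟩ := not_oddAt_even v δ hδ h
  obtain ⟨k', h1', h2'⟩ := not_oddAt_even v δ' hδ' h'
  obtain ⟨b, z, c, d, hz, hc, hd, hcb, hbz, hvz, he⟩ := even_param v δ k h1 h2
  obtain ⟨b', z', c', d', hz', hc', hd', hcb', hbz', hvz', he'⟩ := even_param v δ' k' h1' h2'
  have hi := isSqAt_iff v δ k h1 h2 b z c d hz hc hcb hbz hvz he
  have hi' := isSqAt_iff v δ' k' h1' h2' b' z' c' d' hz' hc' hcb' hbz' hvz' he'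
  obtain ⟨g1, g2⟩ := ord_mul v δ δ' _ _ h1 h2 h1' h2'
  rw [← mul_add] at g1 g2
  have hcc : c * c' ∉ v.asIdeal := by
    intro h4
    rcases v.isPrime.mem_or_mem h4 with h5 | h5
    · exact hc h5
    · exact hc' h5
  have hi'' := isSqAt_iff v (δ * δ') (k + k') g1 g2 (b * b') (z * z') (c * c') (d * d')
    (mul_ne_zero hz hz') hcc (Ideal.mul_mem_mul hcb hcb')
    (by
      rw [pow_add, ← Ideal.span_singleton_mul_span_singleton, ← hbz, ← hbz']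
      ring)
    (by
      rw [map_mul, hvz, hvz', ← WithZero.exp_add]
      congr 1
      push_cast
      ring)
    (by linear_combination (δ' * c' ^ 2) * he + (z ^ 2 * d) * he')
  have hmax := v.isMaximal
  let _ : Field (𝓞 F ⧸ v.asIdeal) := Ideal.Quotient.field _
  have hfin : Finite (𝓞 F ⧸ v.asIdeal) := Ideal.finiteQuotientOfFreeOfNeBot _ v.ne_bot
  have h20 : (2 : 𝓞 F ⧸ v.asIdeal) ≠ 0 := by
    intro h4
    apply h2v
    rw [← Ideal.Quotient.eq_zero_iff_mem, map_ofNat]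
    exact h4
  have key := isSquare_mul_iff h20 (Ideal.Quotient.mk v.asIdeal d) (Ideal.Quotient.mk v.asIdeal d')
    (fun h4 => hd (Ideal.Quotient.eq_zero_iff_mem.mp h4))
    (fun h4 => hd' (Ideal.Quotient.eq_zero_iff_mem.mp h4))
  rw [← map_mul, ← hi, ← hi', ← hi''] at key
  by_cases k1 : S1.IsSqAt v δ <;> by_cases k2 : S1.IsSqAt v δ'
  · rw [S1.chi_of_sq v δ h k1, S1.chi_of_sq v δ' h' k2,
      S1.chi_of_sq v _ h3 (key.mpr ⟨fun _ => k2, fun _ => k1⟩), one_mul]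
  · rw [S1.chi_of_sq v δ h k1, S1.chi_of_nsq v δ' h' k2,
      S1.chi_of_nsq v _ h3 (fun k3 => k2 ((key.mp k3).mp k1)), one_mul]
  · rw [S1.chi_of_nsq v δ h k1, S1.chi_of_sq v δ' h' k2,
      S1.chi_of_nsq v _ h3 (fun k3 => k1 ((key.mp k3).mpr k2)), mul_one]
  · rw [S1.chi_of_nsq v δ h k1, S1.chi_of_nsq v δ' h' k2,
      S1.chi_of_sq v _ h3 (key.mpr ⟨fun k3 => absurd k3 k1, fun k3 => absurd k3 k2⟩)]
    norm_num

/-- The sum of two squares-type identity: if `δ δ'` is a square, the orders have the same parity. -/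
theorem oddAt_of_sq (v : HeightOneSpectrum (𝓞 F)) (δ δ' r : 𝓞 F) (hδ : δ ≠ 0) (hδ' : δ' ≠ 0)
    (h : δ * δ' = r ^ 2) (ho : OddAt v δ') : OddAt v δ := by
  by_contra hcon
  obtain ⟨k, h1, h2⟩ := not_oddAt_even v δ hδ hcon
  obtain ⟨j, h3, h4⟩ := ho
  obtain ⟨g1, g2⟩ := ord_mul v δ δ' _ _ h1 h2 h3 h4
  have hr : r ≠ 0 := by
    rintro rfl
    rw [zero_pow two_ne_zero] at h
    exact mul_ne_zero hδ hδ' h
  obtain ⟨n, hn1, hn2⟩ := exists_ord v r hr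
  obtain ⟨g3, g4⟩ := ord_mul v r r _ _ hn1 hn2 hn1 hn2
  rw [← sq, ← h] at g3 g4
  have := ord_unique v _ _ _ g1 g2 g3 g4
  omega

end

end Pool.Agent.Lib.MP_1a91b9_ntT.S10
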