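import Pool.Agent.Lib.MP_1a91b9_ntT.S10.Two0
import Pool.Agent.Lib.MP_1a91b9_ntT.S10.Quad

/-!
# S10: the ray class character at the dyadic places, from the criterion and the law for `2`
-/

set_option autoImplicit false

namespace Pool.Agent.Lib.MP_1a91b9_ntT.S10

open NumberField IsDedekindDomain Pool.Agent.Lib.MP_1a91b9_nt
open Pool.Agent.Lib.MP_1a91b9_ntT.S4

universe u

/-- The splitting character at the dyadic places is the dyadic symbol. -/
def Crit (F : Type u) [Field F] [NumberField F] : Prop :=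
  ∀ (F' : Type u) [Field F'] [NumberField F'] [Algebra F F'] (δ a b : 𝓞 F) (x : F'),
    δ = a ^ 2 + 4 * b → IsCoprime δ 2 → x ^ 2 = algebraMap F F' δ →
    (¬ ∃ y : F, algebraMap F F' y = x) →
    (∀ z : F', ∃ a b : F, z = algebraMap F F' a + algebraMap F F' b * x) →
    ∀ v : HeightOneSpectrum (𝓞 F), (2 : 𝓞 F) ∈ v.asIdeal → splitChar F' v = DY.chi2 v δ

open Classical in
/-- For every dyadic place there is an element of symbol `-1` only there, for which the law at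
`2` holds. -/
def Only (F : Type u) [Field F] [NumberField F] : Prop :=
  ∀ v : HeightOneSpectrum (𝓞 F), (2 : 𝓞 F) ∈ v.asIdeal → ∃ c : 𝓞 F, DY.chi2 v (1 + 4 * c) = -1 ∧
    (∀ v' : HeightOneSpectrum (𝓞 F), (2 : 𝓞 F) ∈ v'.asIdeal → v' ≠ v →
      DY.chi2 v' (1 + 4 * c) = 1) ∧
    ∀ S : Finset (HeightOneSpectrum (𝓞 F)), (∀ Q, OddAt Q (1 + 4 * c) → Q ∈ S) →
      ∏ Q ∈ S.filter (fun Q => OddAt Q (1 + 4 * c)), S1.chi Q 2 = -1

section
variable {F F' : Type u} [Field F] [NumberField F] [Field F'] [NumberField F'] [Algebra F F']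

theorem chi2_of_isSquare (v : HeightOneSpectrum (𝓞 F)) (δ : 𝓞 F) (h : IsSquare (δ : F)) :
    DY.chi2 v δ = 1 := by
  obtain ⟨y, hy⟩ := h
  have hint : IsIntegral ℤ y := by
    have h1 : IsIntegral ℤ (y ^ 2) := by
      rw [sq, ← hy]
      exact RingOfIntegers.isIntegral_coe _
    exact h1.of_pow two_pos
  obtain ⟨Y, hY⟩ : ∃ Y : 𝓞 F, algebraMap (𝓞 F) F Y = y := ⟨⟨y, hint⟩, rfl⟩
  refine DY.chi2_pos ⟨Y, ?_⟩
  have e : Y ^ 2 - δ = 0 := by
    apply FaithfulSMul.algebraMap_injective (𝓞 F) F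
    have hy' : algebraMap (𝓞 F) F δ = y * y := hy
    rw [map_sub, map_pow, map_zero, hY, hy']
    ring
  rw [e]
  exact Ideal.zero_mem _

/-- The character of the special element. -/
theorem special [IsTotallyComplex F]
    (hunr : ∀ v : HeightOneSpectrum (𝓞 F), (2 : 𝓞 F) ∈ v.asIdeal → (2 : 𝓞 F) ∉ v.asIdeal ^ 2)
    (hL : Module.finrank F F' = 2) (δ : 𝓞 F)
    (hodd : IsCoprime δ 2) (hsq : ∃ a b : 𝓞 F, δ = a ^ 2 + 4 * b) (x : F')
    (hx : x ^ 2 = algebraMap F F' δ) (hn : ¬ ∃ y : F, algebraMap F F' y = x)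
    {m : Ideal (𝓞 F)} {ψ : Ideal (𝓞 F) → ℤ} (h : IsRC F' m ψ) (hm0 : m ≠ 0)
    (hm2 : IsCoprime m (Ideal.span {(2 : 𝓞 F)}))
    (hmv : ∀ v : HeightOneSpectrum (𝓞 F), OddAt v δ → m ≤ v.asIdeal)
    (v : HeightOneSpectrum (𝓞 F)) (hv : (2 : 𝓞 F) ∈ v.asIdeal)
    (h1 : ∀ v' : HeightOneSpectrum (𝓞 F), (2 : 𝓞 F) ∈ v'.asIdeal → v' ≠ v →
      splitChar F' v' = 1)
    (h2 : ψ (Ideal.span {2}) = -1) : ψ v.asIdeal = -1 := by
  have hram : ∀ w : HeightOneSpectrum (𝓞 F), (2 : 𝓞 F) ∉ w.asIdeal → splitChar F' w = 0 →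
      m ≤ w.asIdeal := by
    intro w hw h0
    rw [splitChar_eq_chi hL δ x hx hn w hw] at h0
    refine hmv w ?_
    by_contra h3
    rcases S1.chi_of_not_odd w δ h3 with h4 | h4 <;> rw [h4] at h0 <;> norm_num at h0
  obtain ⟨R, hR⟩ := Ideal.dvd_span_singleton.mpr hv
  have hR0 : R ≠ 0 := by
    rintro rfl
    rw [mul_zero] at hR
    have := Ideal.span_singleton_eq_bot.mp hR
    norm_num at this
  have hRv : ∀ w : HeightOneSpectrum (𝓞 F), R ≤ w.asIdeal → ψ w.asIdeal = 1 := by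
    intro w hw
    have h2w : (2 : 𝓞 F) ∈ w.asIdeal := by
      rw [← Ideal.span_singleton_le_iff_mem, hR]
      exact le_trans Ideal.mul_le_right hw
    refine h.split hL hm0 hm2 hram w h2w (h1 w h2w ?_)
    rintro rfl
    apply hunr w h2w
    rw [← Ideal.span_singleton_le_iff_mem, hR, sq]
    exact Ideal.mul_mono_right hw
  rw [hR, h.mul, psi_eq_one h.one h.mul R hR0 hRv, mul_one] at h2
  exact h2

/-- **The ray class character of `F(√δ)` at the dyadic places.** -/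
theorem dyadic_law (hcrit : Crit F) (honly : Only F) [IsTotallyComplex F]
    (hunr : ∀ v : HeightOneSpectrum (𝓞 F), (2 : 𝓞 F) ∈ v.asIdeal → (2 : 𝓞 F) ∉ v.asIdeal ^ 2)
    (hL : Module.finrank F F' = 2) (δ : 𝓞 F)
    (hodd : IsCoprime δ 2) (hsq : ∃ a b : 𝓞 F, δ = a ^ 2 + 4 * b) (x : F')
    (hx : x ^ 2 = algebraMap F F' δ) (hn : ¬ ∃ y : F, algebraMap F F' y = x)
    (hgen : ∀ z : F', ∃ a b : F, z = algebraMap F F' a + algebraMap F F' b * x)
    {m : Ideal (𝓞 F)} {ψ : Ideal (𝓞 F) → ℤ} (h : IsRC F' m ψ) (hm0 : m ≠ 0)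
    (hm2 : IsCoprime m (Ideal.span {(2 : 𝓞 F)}))
    (hmv : ∀ v : HeightOneSpectrum (𝓞 F), OddAt v δ → m ≤ v.asIdeal)
    (v : HeightOneSpectrum (𝓞 F)) (hv : (2 : 𝓞 F) ∈ v.asIdeal) :
    ψ v.asIdeal = splitChar F' v := by
  have hram : ∀ w : HeightOneSpectrum (𝓞 F), (2 : 𝓞 F) ∉ w.asIdeal → splitChar F' w = 0 →
      m ≤ w.asIdeal := by
    intro w hw h0
    rw [splitChar_eq_chi hL δ x hx hn w hw] at h0
    refine hmv w ?_
    by_contra h3
    rcases S1.chi_of_not_odd w δ h3 with h4 | h4 <;> rw [h4] at h0 <;> norm_num at h0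
  obtain ⟨a, b, hab⟩ := hsq
  have hc1 := hcrit F' δ a b x hab hodd hx hn hgen v hv
  have hδ0 : δ ≠ 0 := S1.ne_zero_of_coprime_two hodd
  have hδv : ∀ w : HeightOneSpectrum (𝓞 F), (2 : 𝓞 F) ∈ w.asIdeal → δ ∉ w.asIdeal :=
    fun w h2 hw => S1.not_two_mem_of_coprime hodd w hw h2
  rcases DY.chi2_cases v δ with hs | hs
  · rw [hc1, hs]
    exact h.split hL hm0 hm2 hram v hv (by rw [hc1, hs])
  rw [hc1, hs]
  -- the special element
  obtain ⟨c, hc, hc', hcS⟩ := honly v hv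
  set d : 𝓞 F := 1 + 4 * c with hd
  have hd2 : IsCoprime d 2 := ⟨1, -2 * c, by rw [hd]; ring⟩
  have hdsq : ∃ a b : 𝓞 F, d = a ^ 2 + 4 * b := ⟨1, c, by rw [hd]; ring⟩
  have hd0 : d ≠ 0 := S1.ne_zero_of_coprime_two hd2
  have hdv : ∀ w : HeightOneSpectrum (𝓞 F), (2 : 𝓞 F) ∈ w.asIdeal → d ∉ w.asIdeal :=
    fun w h2 hw => S1.not_two_mem_of_coprime hd2 w hw h2
  have hdns : ¬ IsSquare (d : F) := by
    intro h1
    rw [chi2_of_isSquare v d h1] at hc
    norm_num at hc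
  obtain ⟨F₂, iF, iN, iA, x₂, hx₂, hn₂, hgen₂, hL₂⟩ := exists_quad F (d : F) hdns
  by_cases hprod : IsSquare ((δ * d : 𝓞 F) : F)
  · -- `F(√δ) = F(√d)`
    obtain ⟨y, hy⟩ := hprod
    have hint : IsIntegral ℤ y := by
      have h1 : IsIntegral ℤ (y ^ 2) := by
        rw [sq, ← hy]
        exact RingOfIntegers.isIntegral_coe _
      exact h1.of_pow two_pos
    obtain ⟨Y, hY⟩ : ∃ Y : 𝓞 F, algebraMap (𝓞 F) F Y = y := ⟨⟨y, hint⟩, rfl⟩
    have hr : δ * d = Y ^ 2 := by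
      apply FaithfulSMul.algebraMap_injective (𝓞 F) F
      rw [map_pow, hY, sq]
      exact hy
    have hδF : (δ : F) ≠ 0 := by
      intro h0
      exact hδ0 (RingOfIntegers.coe_injective (by rw [map_zero]; exact h0))
    have hx0 : x ≠ 0 := by
      intro h0
      exact hn ⟨0, by rw [h0, map_zero]⟩
    have hy2 : algebraMap F F' y ^ 2 = algebraMap F F' δ * algebraMap F F' d := by
      have hy' : algebraMap (𝓞 F) F δ * algebraMap (𝓞 F) F d = y * y := by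
        rw [← map_mul]; exact hy
      rw [← map_pow, ← map_mul, sq, ← hy']
    have hx' : (algebraMap F F' y / x) ^ 2 = algebraMap F F' d := by
      rw [div_pow, hx, hy2, mul_div_cancel_left₀ _ (by rwa [Ne, map_eq_zero])]
    have hn' : ¬ ∃ u : F, algebraMap F F' u = algebraMap F F' y / x := by
      rintro ⟨u, hu⟩
      rw [← hu, ← map_pow] at hx'
      exact hdns ⟨u, by rw [← sq]; exact ((algebraMap F F').injective hx').symm⟩
    have hyF : y ≠ 0 := by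
      rintro rfl
      rw [map_zero, zero_pow two_ne_zero] at hy2
      have hdF : (d : F) ≠ 0 := by
        intro h0
        exact hd0 (RingOfIntegers.coe_injective (by rw [map_zero]; exact h0))
      rcases mul_eq_zero.mp hy2.symm with h3 | h3
      · exact hδF ((map_eq_zero _).mp h3)
      · exact hdF ((map_eq_zero _).mp h3)
    have hgen' : ∀ z : F', ∃ a b : F,
        z = algebraMap F F' a + algebraMap F F' b * (algebraMap F F' y / x) := by
      intro z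
      obtain ⟨p, q, hz⟩ := hgen z
      refine ⟨p, q * δ / y, ?_⟩
      have hyF' : algebraMap F F' y ≠ 0 := by rwa [Ne, map_eq_zero]
      rw [hz, map_div₀, map_mul, ← hx]
      field_simp
    have hmv' : ∀ v : HeightOneSpectrum (𝓞 F), OddAt v d → m ≤ v.asIdeal := fun w hw =>
      hmv w (oddAt_of_sq w δ d _ hδ0 hd0 hr hw)
    refine special hunr hL d hd2 hdsq _ hx' hn' h hm0 hm2 hmv' v hv ?_ ?_
    · intro v' hv' hne
      rw [hcrit F' d 1 c _ (by rw [hd]; ring) hd2 hx' hn' hgen' v' hv']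
      exact hc' v' hv' hne
    · rw [h.two hL d hd2 hdsq _ hx' hn' hm2 hmv' (finite_odd d hd0).toFinset (fun Q hQ =>
        (Set.Finite.mem_toFinset _).mpr hQ)]
      exact hcS _ (fun Q hQ => (Set.Finite.mem_toFinset _).mpr hQ)
  · obtain ⟨m₂, ψ₂, n₂, c₂, o₂, r₂⟩ := exists_isRC hL₂ d hd2 hdsq x₂ hx₂ hn₂
    have k2 : ψ₂ v.asIdeal = -1 := by
      refine special hunr hL₂ d hd2 hdsq x₂ hx₂ hn₂ r₂ n₂ c₂ o₂ v hv ?_ ?_
      · intro v' hv' hne
        rw [hcrit F₂ d 1 c _ (by rw [hd]; ring) hd2 hx₂ hn₂ hgen₂ v' hv']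
        exact hc' v' hv' hne
      · rw [r₂.two hL₂ d hd2 hdsq _ hx₂ hn₂ c₂ o₂ (finite_odd d hd0).toFinset (fun Q hQ =>
          (Set.Finite.mem_toFinset _).mpr hQ)]
        exact hcS _ (fun Q hQ => (Set.Finite.mem_toFinset _).mpr hQ)
    obtain ⟨F₃, iF₃, iN₃, iA₃, x₃, hx₃, hn₃, hgen₃, hL₃⟩ := exists_quad F _ hprod
    have hd3 : IsCoprime (δ * d) 2 := hodd.mul_left hd2
    have hab3 : δ * d = a ^ 2 + 4 * (b + a ^ 2 * c + 4 * b * c) := by rw [hab, hd]; ring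
    obtain ⟨m₃, ψ₃, n₃, c₃, o₃, r₃⟩ := exists_isRC hL₃ (δ * d) hd3 ⟨_, _, hab3⟩ x₃ hx₃ hn₃
    have s3 : splitChar F₃ v = 1 := by
      rw [hcrit F₃ (δ * d) _ _ x₃ hab3 hd3 hx₃ hn₃ hgen₃ v hv,
        DY.chi2_mul v hv δ d ⟨a, b, hab⟩ hdsq (hδv v hv) (hdv v hv), hs, hc]
      norm_num
    have k3 : ψ₃ v.asIdeal = 1 := by
      refine r₃.split hL₃ n₃ c₃ ?_ v hv s3
      intro w hw h0
      rw [splitChar_eq_chi hL₃ (δ * d) x₃ hx₃ hn₃ w hw] at h0
      refine o₃ w ?_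
      by_contra h3
      rcases S1.chi_of_not_odd w _ h3 with h4 | h4 <;> rw [h4] at h0 <;> norm_num at h0
    have k := compare_three h r₂ r₃ hm2 c₂ c₃ hm0 n₂ n₃ (fun w hw h1 h2 h3 => by
      rw [splitChar_eq_chi hL δ x hx hn w hw, splitChar_eq_chi hL₂ d x₂ hx₂ hn₂ w hw,
        splitChar_eq_chi hL₃ (δ * d) x₃ hx₃ hn₃ w hw]
      exact chi_mul w hw δ d hδ0 hd0 (fun ho => h1 (hmv w ho)) (fun ho => h2 (o₂ w ho))) v hv
    rw [k2, k3] at k
    linarith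

end

end Pool.Agent.Lib.MP_1a91b9_ntT.S10
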