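import Pool.Agent.Lib.MP_1a91b9_ntT.S4.RayChar
import Pool.Agent.Lib.MP_1a91b9_ntT.S4.Dyadic
import Pool.Agent.Lib.MP_1a91b9_ntT.S4.Compare
import Pool.Agent.Lib.MP_1a91b9_ntT.S1.Recip

/-!
# S10: ray class characters which extend the quadratic symbol, and their products
-/

set_option autoImplicit false

namespace Pool.Agent.Lib.MP_1a91b9_ntT.S10

open NumberField IsDedekindDomain Pool.Agent.Lib.MP_1a91b9_nt
open Pool.Agent.Lib.MP_1a91b9_ntT.S4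

universe u

section
variable {F : Type u} [Field F] [NumberField F]

/-- `ψ` is a ray class character modulo `m` which extends the splitting character of `F'/F` from
the odd ideals. -/
structure IsRC (F' : Type u) [Field F'] [NumberField F'] [Algebra F F'] (m : Ideal (𝓞 F))
    (ψ : Ideal (𝓞 F) → ℤ) : Prop where
  one : ψ 1 = 1
  mul : ∀ I J, ψ (I * J) = ψ I * ψ J
  zero : ∀ I, ¬ IsCoprime I m → ψ I = 0
  pm : ∀ I, IsCoprime I m → ψ I = 1 ∨ ψ I = -1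
  ray : ∀ I J, RayEq m I J → ψ I = ψ J
  val : ∀ J, IsCoprime J m → IsCoprime J (Ideal.span {(2 : 𝓞 F)}) →
        ψ J = chiI (splitChar F') J

theorem rayEq_mono {m m' I J : Ideal (𝓞 F)} (h : m ≤ m') (hr : RayEq m I J) : RayEq m' I J := by
  obtain ⟨b, z, z', hb, hz, hz', h1, h2, h3⟩ := hr
  exact ⟨b, z, z', hb, hz, hz', h1, h2, Ideal.mul_mono_left h h3⟩

/-- a dyadic place is coprime to an odd ideal -/
theorem dyadic_coprime {m : Ideal (𝓞 F)} (hm : IsCoprime m (Ideal.span {(2 : 𝓞 F)}))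
    (v : HeightOneSpectrum (𝓞 F)) (hv : (2 : 𝓞 F) ∈ v.asIdeal) : IsCoprime v.asIdeal m := by
  by_contra h
  rw [← le_iff_not_coprime] at h
  exact coprime_not_le hm v h ((Ideal.span_singleton_le_iff_mem _).mpr hv)

/-- The character of an odd ideal equivalent to `v`. -/
theorem IsRC.eq_chiI {F' : Type u} [Field F'] [NumberField F'] [Algebra F F'] {m : Ideal (𝓞 F)}
    {ψ : Ideal (𝓞 F) → ℤ} (h : IsRC F' m ψ) (hm : IsCoprime m (Ideal.span {(2 : 𝓞 F)}))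
    (v : HeightOneSpectrum (𝓞 F)) (hv : (2 : 𝓞 F) ∈ v.asIdeal) (J : Ideal (𝓞 F))
    (hJ : RayEq m v.asIdeal J) (hJ2 : IsCoprime J (Ideal.span {(2 : 𝓞 F)})) :
    ψ v.asIdeal = chiI (splitChar F') J := by
  rw [h.ray _ _ hJ]
  exact h.val J (hJ.coprime (dyadic_coprime hm v hv)) hJ2

theorem chiI_mul_char (χ₁ χ₂ χ₃ : HeightOneSpectrum (𝓞 F) → ℤ) (I : Ideal (𝓞 F)) (hI : I ≠ 0)
    (h : ∀ v : HeightOneSpectrum (𝓞 F), I ≤ v.asIdeal → χ₁ v * χ₂ v = χ₃ v) :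
    chiI χ₁ I * chiI χ₂ I = chiI χ₃ I := by
  induction I using UniqueFactorizationMonoid.induction_on_prime with
  | h₁ => exact absurd rfl hI
  | h₂ J hJ =>
    have : J = 1 := by
      rw [Ideal.isUnit_iff] at hJ
      rw [hJ, Ideal.one_eq_top]
    rw [this, chiI_one, chiI_one, chiI_one, one_mul]
  | h₃ J P hJ hP ih =>
    rw [chiI_mul, chiI_mul, chiI_mul]
    have e : P = (⟨P, Ideal.isPrime_of_prime hP, hP.ne_zero⟩ : HeightOneSpectrum (𝓞 F)).asIdeal := rfl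
    have h1 := h ⟨P, Ideal.isPrime_of_prime hP, hP.ne_zero⟩ (Ideal.le_of_dvd (dvd_mul_right _ _))
    have h2 := ih hJ fun v hv => h v (le_trans Ideal.mul_le_right hv)
    rw [e, chiI_place, chiI_place, chiI_place, ← h1, ← h2]
    ring

/-- Comparison of the characters at a dyadic place. -/
theorem compare_three {F₁ F₂ F₃ : Type u} [Field F₁] [NumberField F₁] [Algebra F F₁]
    [Field F₂] [NumberField F₂] [Algebra F F₂] [Field F₃] [NumberField F₃] [Algebra F F₃]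
    {m₁ m₂ m₃ : Ideal (𝓞 F)} {ψ₁ ψ₂ ψ₃ : Ideal (𝓞 F) → ℤ} (h₁ : IsRC F₁ m₁ ψ₁)
    (h₂ : IsRC F₂ m₂ ψ₂) (h₃ : IsRC F₃ m₃ ψ₃)
    (c₁ : IsCoprime m₁ (Ideal.span {(2 : 𝓞 F)})) (c₂ : IsCoprime m₂ (Ideal.span {(2 : 𝓞 F)}))
    (c₃ : IsCoprime m₃ (Ideal.span {(2 : 𝓞 F)})) (n₁ : m₁ ≠ 0) (n₂ : m₂ ≠ 0) (n₃ : m₃ ≠ 0)
    (h : ∀ w : HeightOneSpectrum (𝓞 F), (2 : 𝓞 F) ∉ w.asIdeal → ¬ m₁ ≤ w.asIdeal →
      ¬ m₂ ≤ w.asIdeal → ¬ m₃ ≤ w.asIdeal → splitChar F₁ w * splitChar F₂ w = splitChar F₃ w)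
    (v : HeightOneSpectrum (𝓞 F)) (hv : (2 : 𝓞 F) ∈ v.asIdeal) :
    ψ₁ v.asIdeal * ψ₂ v.asIdeal = ψ₃ v.asIdeal := by
  have h20 : Ideal.span {(2 : 𝓞 F)} ≠ 0 := by
    intro h
    have := Ideal.span_singleton_eq_bot.mp h
    norm_num at this
  have n : m₁ * m₂ * m₃ ≠ 0 := mul_ne_zero (mul_ne_zero n₁ n₂) n₃
  have c : IsCoprime (m₁ * m₂ * m₃) (Ideal.span {(2 : 𝓞 F)}) := (c₁.mul_left c₂).mul_left c₃
  obtain ⟨J, hJ, hJ2⟩ := exists_rayEq_coprime (m₁ * m₂ * m₃) (Ideal.span {(2 : 𝓞 F)}) v.asIdeal n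
    h20 v.ne_bot c
  have l₁ : m₁ * m₂ * m₃ ≤ m₁ := le_trans Ideal.mul_le_left Ideal.mul_le_left
  have l₂ : m₁ * m₂ * m₃ ≤ m₂ := le_trans Ideal.mul_le_left Ideal.mul_le_right
  have l₃ : m₁ * m₂ * m₃ ≤ m₃ := Ideal.mul_le_right
  rw [h₁.eq_chiI c₁ v hv J (rayEq_mono l₁ hJ) hJ2, h₂.eq_chiI c₂ v hv J (rayEq_mono l₂ hJ) hJ2,
    h₃.eq_chiI c₃ v hv J (rayEq_mono l₃ hJ) hJ2]
  have hJm := hJ.coprime (dyadic_coprime c v hv)
  have hJ0 : J ≠ 0 := hJ.symm.ne_zero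
  refine chiI_mul_char _ _ _ J hJ0 fun w hw => h w ?_ ?_ ?_ ?_
  · intro h2
    exact coprime_not_le hJ2 w hw ((Ideal.span_singleton_le_iff_mem _).mpr h2)
  · intro h2
    exact coprime_not_le hJm w hw (le_trans l₁ h2)
  · intro h2
    exact coprime_not_le hJm w hw (le_trans l₂ h2)
  · intro h2
    exact coprime_not_le hJm w hw (le_trans l₃ h2)

end

section
variable {F : Type u} [Field F] [NumberField F] [IsTotallyComplex F]

/-- existence of the ray class character -/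
theorem exists_isRC {F' : Type u} [Field F'] [NumberField F'] [Algebra F F']
    (hL : Module.finrank F F' = 2) (δ : 𝓞 F) (hodd : IsCoprime δ 2)
    (hsq : ∃ a b : 𝓞 F, δ = a ^ 2 + 4 * b) (x : F') (hx : x ^ 2 = algebraMap F F' δ)
    (hn : ¬ ∃ y : F, algebraMap F F' y = x) :
    ∃ (m : Ideal (𝓞 F)) (ψ : Ideal (𝓞 F) → ℤ), m ≠ 0 ∧ IsCoprime m (Ideal.span {(2 : 𝓞 F)}) ∧
      (∀ v : HeightOneSpectrum (𝓞 F), OddAt v δ → m ≤ v.asIdeal) ∧ IsRC F' m ψ := by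
  obtain ⟨m, hm0, hm1, hm3, hm2, hmv⟩ := exists_bad δ hodd
  have hrec : Reciprocity δ (splitChar F') :=
    S1.reciprocity δ hodd hsq (splitChar F') (isChi_splitChar hL δ x hx hn)
  obtain ⟨ψ, ψ1, ψmul, ψ0, ψpm, ψray, ψval⟩ := exists_rayChar hL δ x hx hn hrec m hm0 hm1 hm2
    (fun v hv => (hmv v).mpr (Or.inr hv))
  exact ⟨m, ψ, hm0, hm2, fun v hv => (hmv v).mpr (Or.inr hv), ψ1, ψmul, ψ0, ψpm, ψray, ψval⟩

end

end Pool.Agent.Lib.MP_1a91b9_ntT.S10
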