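import Pool.Agent.Lib.MP_1a91b9_ntT.S10.Law

/-!
# S10: relative norms and the splitting character; dyadic places which split
-/

set_option autoImplicit false

namespace Pool.Agent.Lib.MP_1a91b9_ntT.S10

open NumberField IsDedekindDomain Pool.Agent.Lib.MP_1a91b9_nt
open Pool.Agent.Lib.MP_1a91b9_ntT.S4

universe u

section
variable {F F' : Type u} [Field F] [NumberField F] [Field F'] [NumberField F'] [Algebra F F']

/-- the splitting character is trivial on relative norms -/
theorem chiI_relNorm (hL : Module.finrank F F' = 2) (I : Ideal (𝓞 F')) (hI : I ≠ 0)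
    (h : ∀ W : HeightOneSpectrum (𝓞 F'), I ≤ W.asIdeal → splitChar F' (W.under (𝓞 F)) ≠ 0) :
    chiI (splitChar F') (Ideal.relNorm (𝓞 F) I) = 1 := by
  induction I using UniqueFactorizationMonoid.induction_on_prime with
  | h₁ => exact absurd rfl hI
  | h₂ J hJ =>
    have : J = 1 := by
      rw [Ideal.isUnit_iff] at hJ
      rw [hJ, Ideal.one_eq_top]
    rw [this, map_one, chiI_one]
  | h₃ J P hJ hP ih =>
    have h2 := ih hJ fun v hv => h v (le_trans Ideal.mul_le_right hv)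
    rw [map_mul, chiI_mul, h2, mul_one]
    set W : HeightOneSpectrum (𝓞 F') := ⟨P, Ideal.isPrime_of_prime hP, hP.ne_zero⟩ with hW
    have e : P = W.asIdeal := rfl
    have h1 := h W (Ideal.le_of_dvd (dvd_mul_right _ _))
    set v := W.under (𝓞 F) with hv
    have hvm : v.asIdeal.IsMaximal := v.isMaximal
    have hwm : W.asIdeal.IsMaximal := W.isMaximal
    have i2 : W.asIdeal.LiesOver v.asIdeal := ⟨rfl⟩
    have h3 : Ideal.relNorm (𝓞 F) W.asIdeal = v.asIdeal ^ W.asIdeal.inertiaDeg (𝓞 F) :=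
      Ideal.relNorm_eq_pow_of_isMaximal W.asIdeal v.asIdeal
    have hpow : ∀ (I : Ideal (𝓞 F)) (n : ℕ), chiI (splitChar F') (I ^ n) =
        chiI (splitChar F') I ^ n := by
      intro I n
      induction n with
      | zero => rw [pow_zero, pow_zero, chiI_one]
      | succ n ih => rw [pow_succ, chiI_mul, ih, pow_succ]
    rw [e, h3, hpow, chiI_place]
    rcases quad_cases hL v with ⟨c1, c2⟩ | ⟨c1, c2⟩ | ⟨c1, c2⟩
    · rw [splitChar, if_pos c1, one_pow]
    · have c3 : splitChar F' v = -1 := by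
        rw [splitChar, if_neg (by omega), if_pos fun w => (c2 w).1]
      have c4 := (c2 ⟨W, rfl⟩).1
      change W.asIdeal.inertiaDeg (𝓞 F) = 2 at c4
      rw [c3, c4]
      norm_num
    · exfalso
      apply h1
      rw [splitChar, if_neg (by omega), if_neg]
      intro h4
      have := h4 ⟨W, rfl⟩
      rw [(c2 ⟨W, rfl⟩).1] at this
      omega

/-- the relative norm of an ideal whose prime factors are odd is odd -/
theorem relNorm_coprime (c : Ideal (𝓞 F)) (I : Ideal (𝓞 F')) (hI : I ≠ 0)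
    (h : ∀ W : HeightOneSpectrum (𝓞 F'), I ≤ W.asIdeal → ¬ c ≤ (W.under (𝓞 F)).asIdeal) :
    IsCoprime (Ideal.relNorm (𝓞 F) I) c := by
  induction I using UniqueFactorizationMonoid.induction_on_prime with
  | h₁ => exact absurd rfl hI
  | h₂ J hJ =>
    have : J = 1 := by
      rw [Ideal.isUnit_iff] at hJ
      rw [hJ, Ideal.one_eq_top]
    rw [this, map_one]
    exact isCoprime_one_left
  | h₃ J P hJ hP ih =>
    have h2 := ih hJ fun v hv => h v (le_trans Ideal.mul_le_right hv)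
    rw [map_mul]
    refine IsCoprime.mul_left ?_ h2
    set W : HeightOneSpectrum (𝓞 F') := ⟨P, Ideal.isPrime_of_prime hP, hP.ne_zero⟩ with hW
    have e : P = W.asIdeal := rfl
    have h1 := h W (Ideal.le_of_dvd (dvd_mul_right _ _))
    set v := W.under (𝓞 F) with hv
    have hvm : v.asIdeal.IsMaximal := v.isMaximal
    have hwm : W.asIdeal.IsMaximal := W.isMaximal
    have i2 : W.asIdeal.LiesOver v.asIdeal := ⟨rfl⟩
    have h3 : Ideal.relNorm (𝓞 F) W.asIdeal = v.asIdeal ^ W.asIdeal.inertiaDeg (𝓞 F) :=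
      Ideal.relNorm_eq_pow_of_isMaximal W.asIdeal v.asIdeal
    rw [e, h3]
    refine IsCoprime.pow_left ?_
    by_contra h4
    rw [← le_iff_not_coprime] at h4
    exact h1 h4

/-- norms of elements congruent to `1` -/
theorem intNorm_sub_one (hL : Module.finrank F F' = 2) (m : Ideal (𝓞 F)) (y : 𝓞 F')
    (hy : y - 1 ∈ m.map (algebraMap (𝓞 F) (𝓞 F'))) : Algebra.intNorm (𝓞 F) (𝓞 F') y - 1 ∈ m := by
  have hquad : Algebra.IsQuadraticExtension F F' := ⟨hL⟩
  have hgal : IsGalois F F' := inferInstance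
  set m' := m.map (algebraMap (𝓞 F) (𝓞 F')) with hm'
  have hstab : ∀ (σ : Gal(F'/F)) (t : 𝓞 F'), t ∈ m' → σ • t ∈ m' := by
    intro σ
    have h1 : m' ≤ m'.comap (MulSemiringAction.toRingHom Gal(F'/F) (𝓞 F') σ) := by
      conv_lhs => rw [hm']
      rw [Ideal.map_le_iff_le_comap]
      intro a ha
      change σ • algebraMap (𝓞 F) (𝓞 F') a ∈ m'
      rw [smul_algebraMap]
      exact Ideal.mem_map_of_mem _ ha
    intro t ht
    exact h1 ht
  have h1 : algebraMap (𝓞 F) (𝓞 F') (Algebra.intNorm (𝓞 F) (𝓞 F') y) = ∏ σ : Gal(F'/F), σ • y := by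
    apply RingOfIntegers.ext
    have h2 := Algebra.algebraMap_intNorm (A := 𝓞 F) (K := F) (L := F') (B := 𝓞 F') y
    have h3 := Algebra.norm_eq_prod_automorphisms F (y : F')
    have h4 : ((algebraMap (𝓞 F) (𝓞 F') (Algebra.intNorm (𝓞 F) (𝓞 F') y) : 𝓞 F') : F') =
        algebraMap F F' (algebraMap (𝓞 F) F (Algebra.intNorm (𝓞 F) (𝓞 F') y)) := rfl
    rw [h4, h2]
    change algebraMap F F' (Algebra.norm F (y : F')) = _
    rw [h3]
    change _ = algebraMap (𝓞 F') F' (∏ σ : Gal(F'/F), σ • y)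
    rw [map_prod]
    rfl
  have h2 : algebraMap (𝓞 F) (𝓞 F') (Algebra.intNorm (𝓞 F) (𝓞 F') y - 1) ∈ m' := by
    rw [map_sub, map_one, h1, ← Ideal.Quotient.eq, map_prod, map_one]
    refine Finset.prod_eq_one fun σ _ => ?_
    rw [← map_one (Ideal.Quotient.mk m'), Ideal.Quotient.eq]
    have h3 := hstab σ _ hy
    rwa [smul_sub, smul_one] at h3
  have h3 : (m.map (algebraMap (𝓞 F) (𝓞 F'))).comap (algebraMap (𝓞 F) (𝓞 F')) = m :=
    Ideal.comap_map_eq_self_of_faithfullyFlat m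
  rw [← h3]
  exact h2

/-- An element of exact order one at `V`, coprime to the other places of `D` and congruent to `1`
modulo `m`. -/
theorem exists_elt (V : HeightOneSpectrum (𝓞 F')) (D : Finset (HeightOneSpectrum (𝓞 F')))
    (m : Ideal (𝓞 F')) (hm : ¬ m ≤ V.asIdeal) :
    ∃ y : 𝓞 F', y ∈ V.asIdeal ∧ y ∉ V.asIdeal ^ 2 ∧ (∀ W ∈ D, W ≠ V → y ∉ W.asIdeal) ∧
      y - 1 ∈ m := by
  classical
  obtain ⟨π, h1, h2⟩ : ∃ π ∈ V.asIdeal, π ∉ V.asIdeal ^ 2 := by
    have h := Ideal.pow_right_strictAnti V.asIdeal V.ne_bot V.isPrime.ne_top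
      (show 1 < 2 by norm_num)
    simp only [pow_one] at h
    exact Set.exists_of_ssubset h
  set B := m * ∏ W ∈ D.erase V, W.asIdeal with hB
  have hc : IsCoprime (V.asIdeal ^ 2) B := by
    refine IsCoprime.pow_left ?_
    refine IsCoprime.mul_right ?_ ?_
    · by_contra h
      exact hm ((le_iff_not_coprime m V).mpr h)
    · refine IsCoprime.prod_right fun W hW => ?_
      by_contra h
      rw [← le_iff_not_coprime] at h
      have h3 : W.asIdeal = V.asIdeal := W.isMaximal.eq_of_le V.isPrime.ne_top h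
      exact (Finset.mem_erase.mp hW).1 (HeightOneSpectrum.ext h3)
  obtain ⟨a, ha, b, hb, hab⟩ := Ideal.isCoprime_iff_exists.mp hc
  have e1 : (π * b + a) - π ∈ V.asIdeal ^ 2 := by
    have e : (π * b + a) - π = a * (1 - π) := by
      have : b = 1 - a := by rw [← hab]; ring
      rw [this]; ring
    rw [e]
    exact Ideal.mul_mem_right _ _ ha
  have e2 : (π * b + a) - 1 ∈ B := by
    have e : (π * b + a) - 1 = b * (π - 1) := by
      have : a = 1 - b := by rw [← hab]; ring
      rw [this]; ring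
    rw [e]
    exact Ideal.mul_mem_right _ _ hb
  refine ⟨π * b + a, ?_, ?_, ?_, ?_⟩
  · have e3 := Ideal.add_mem _ (Ideal.pow_le_self two_ne_zero e1) h1
    rwa [sub_add_cancel] at e3
  · intro h
    apply h2
    have e3 := Ideal.sub_mem _ h e1
    rwa [sub_sub_cancel] at e3
  · intro W hW hWV h
    have e3 : B ≤ W.asIdeal := by
      refine le_trans Ideal.mul_le_right ?_
      exact Ideal.le_of_dvd (Finset.dvd_prod_of_mem _ (Finset.mem_erase.mpr ⟨hWV, hW⟩))
    have e4 := Ideal.sub_mem _ h (e3 e2)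
    rw [sub_sub_cancel] at e4
    exact W.isPrime.ne_top ((Ideal.eq_top_iff_one _).mpr e4)
  · exact Ideal.mul_le_left e2

/-- The ray class character at the dyadic places which split. -/
theorem IsRC.split (hL : Module.finrank F F' = 2) {m : Ideal (𝓞 F)} {ψ : Ideal (𝓞 F) → ℤ}
    (h : IsRC F' m ψ) (hm0 : m ≠ 0) (hm2 : IsCoprime m (Ideal.span {(2 : 𝓞 F)}))
    (hram : ∀ w : HeightOneSpectrum (𝓞 F), (2 : 𝓞 F) ∉ w.asIdeal → splitChar F' w = 0 →
      m ≤ w.asIdeal)
    (v : HeightOneSpectrum (𝓞 F)) (hv : (2 : 𝓞 F) ∈ v.asIdeal) (hs : splitChar F' v = 1) :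
    ψ v.asIdeal = 1 := by
  classical
  -- a place above `v` of degree one
  have hcase : Fintype.card (Over F' v) = 2 ∧
      ∀ w : Over F' v, w.1.asIdeal.inertiaDeg (𝓞 F) = 1 := by
    rcases quad_cases hL v with ⟨c1, c2⟩ | ⟨c1, c2⟩ | ⟨c1, c2⟩
    · exact ⟨c1, fun w => (c2 w).1⟩
    · exfalso
      rw [splitChar, if_neg (by omega), if_pos fun w => (c2 w).1] at hs
      norm_num at hs
    · exfalso
      rw [splitChar, if_neg (by omega), if_neg] at hs
      · norm_num at hs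
      · intro h4
        have hne : Nonempty (Over F' v) := by
          rw [← Fintype.card_pos_iff]
          omega
        obtain ⟨w⟩ := hne
        have := h4 w
        rw [(c2 w).1] at this
        omega
  have hne : Nonempty (Over F' v) := by
    rw [← Fintype.card_pos_iff, hcase.1]
    norm_num
  obtain ⟨w⟩ := hne
  set V := w.1 with hV
  have hvm : v.asIdeal.IsMaximal := v.isMaximal
  have hwm : V.asIdeal.IsMaximal := V.isMaximal
  have i2 : V.asIdeal.LiesOver v.asIdeal := ⟨w.2.symm⟩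
  have hVn : Ideal.relNorm (𝓞 F) V.asIdeal = v.asIdeal := by
    have h3 : Ideal.relNorm (𝓞 F) V.asIdeal = v.asIdeal ^ V.asIdeal.inertiaDeg (𝓞 F) :=
      Ideal.relNorm_eq_pow_of_isMaximal V.asIdeal v.asIdeal
    rw [h3, hcase.2 w, pow_one]
  -- the dyadic places of `F'`
  have h20 : Ideal.span {(2 : 𝓞 F')} ≠ 0 := by
    intro h
    have := Ideal.span_singleton_eq_bot.mp h
    norm_num at this
  have hDfin : {W : HeightOneSpectrum (𝓞 F') | (2 : 𝓞 F') ∈ W.asIdeal}.Finite := by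
    refine (Ideal.finite_factors h20).subset fun v hv => ?_
    exact Ideal.dvd_span_singleton.mpr hv
  set D := hDfin.toFinset with hDdef
  have hD : ∀ W, W ∈ D ↔ (2 : 𝓞 F') ∈ W.asIdeal := fun v => by
    rw [hDdef, Set.Finite.mem_toFinset]; rfl
  set m' := m.map (algebraMap (𝓞 F) (𝓞 F')) with hm'
  have hle : ∀ W : HeightOneSpectrum (𝓞 F'), m' ≤ W.asIdeal ↔ m ≤ (W.under (𝓞 F)).asIdeal := by
    intro W
    rw [hm', Ideal.map_le_iff_le_comap]
    rfl
  have h2le : ∀ W : HeightOneSpectrum (𝓞 F'), (2 : 𝓞 F') ∈ W.asIdeal ↔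
      (2 : 𝓞 F) ∈ (W.under (𝓞 F)).asIdeal := by
    intro W
    have e : (2 : 𝓞 F) ∈ (W.under (𝓞 F)).asIdeal ↔ algebraMap (𝓞 F) (𝓞 F') 2 ∈ W.asIdeal := Iff.rfl
    rw [e, map_ofNat]
  have hVv : V.under (𝓞 F) = v := HeightOneSpectrum.ext w.2
  have hmV : ¬ m' ≤ V.asIdeal := by
    rw [hle, hVv, le_iff_not_coprime, not_not]
    exact dyadic_coprime hm2 v hv
  obtain ⟨y, y1, y2, y3, y4⟩ := exists_elt V D m' hmV
  have hy0 : y ≠ 0 := by
    rintro rfl
    exact y2 (Ideal.zero_mem _)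
  obtain ⟨Y, hY⟩ := Ideal.dvd_span_singleton.mpr y1
  have hY0 : Y ≠ 0 := by
    rintro rfl
    rw [mul_zero] at hY
    exact hy0 (Ideal.span_singleton_eq_bot.mp hY)
  have hYW : ∀ W : HeightOneSpectrum (𝓞 F'), Y ≤ W.asIdeal → (2 : 𝓞 F') ∉ W.asIdeal := by
    intro W hW h2
    by_cases hWV : W = V
    · subst hWV
      apply y2
      rw [sq, ← Ideal.span_singleton_le_iff_mem, hY]
      exact Ideal.mul_mono_right hW
    · apply y3 W ((hD W).mpr h2) hWV
      rw [← Ideal.span_singleton_le_iff_mem, hY]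
      exact le_trans Ideal.mul_le_right hW
  have hYm : ∀ W : HeightOneSpectrum (𝓞 F'), Y ≤ W.asIdeal → ¬ m' ≤ W.asIdeal := by
    intro W hW h2
    have e3 : y ∈ W.asIdeal := by
      rw [← Ideal.span_singleton_le_iff_mem, hY]
      exact le_trans Ideal.mul_le_right hW
    have e4 := Ideal.sub_mem _ e3 (h2 y4)
    rw [sub_sub_cancel] at e4
    exact W.isPrime.ne_top ((Ideal.eq_top_iff_one _).mpr e4)
  set n := Algebra.intNorm (𝓞 F) (𝓞 F') y with hn
  have hn1 : Ideal.span {n} = v.asIdeal * Ideal.relNorm (𝓞 F) Y := by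
    rw [hn, ← Ideal.relNorm_singleton, hY, map_mul, hVn]
  have hn0 : n ≠ 0 := by
    intro h0
    have h5 : Ideal.span {n} = ⊥ := by rw [h0, Ideal.span_singleton_eq_bot]
    rw [hn1] at h5
    rcases mul_eq_zero.mp h5 with h6 | h6
    · exact v.ne_bot h6
    · rw [Ideal.zero_eq_bot, Ideal.relNorm_eq_bot_iff] at h6
      exact hY0 h6
  have hray : RayEq m (Ideal.span {n}) 1 :=
    ⟨1, n, 1, one_ne_zero, hn0, one_ne_zero, mul_one _, by
      rw [mul_one, Ideal.span_singleton_one, Ideal.one_eq_top], by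
      rw [mul_one]
      exact intNorm_sub_one hL m y y4⟩
  have k1 := h.ray _ _ hray
  rw [h.one, hn1, h.mul] at k1
  have k2 : IsCoprime (Ideal.relNorm (𝓞 F) Y) m := by
    refine relNorm_coprime m Y hY0 fun W hW => ?_
    rw [← hle]
    exact hYm W hW
  have k3 : IsCoprime (Ideal.relNorm (𝓞 F) Y) (Ideal.span {(2 : 𝓞 F)}) := by
    refine relNorm_coprime _ Y hY0 fun W hW => ?_
    rw [Ideal.span_singleton_le_iff_mem, ← h2le]
    exact hYW W hW
  have k4 : chiI (splitChar F') (Ideal.relNorm (𝓞 F) Y) = 1 := by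
    refine chiI_relNorm hL Y hY0 fun W hW h0 => ?_
    apply hYm W hW
    rw [hle]
    refine hram _ ?_ h0
    rw [← h2le]
    exact hYW W hW
  rw [h.val _ k2 k3, k4, mul_one] at k1
  exact k1

end

end Pool.Agent.Lib.MP_1a91b9_ntT.S10
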