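import Pool.Agent.Lib.MP_1a91b9_ntT.S10.TraceTwo
import Pool.Agent.Lib.MP_1a91b9_ntT.S1.Recip

/-!
# S10: the supplementary law for `2`
-/

set_option autoImplicit false

namespace Pool.Agent.Lib.MP_1a91b9_ntT.S10

open NumberField IsDedekindDomain Module ZMod Pool.Agent.Lib.MP_1a91b9_ntT.S1

section
variable {F : Type*} [Field F] [NumberField F]

theorem chi8_neg (x : ZMod 8) : χ₈ (-x) = χ₈ x := by
  revert x
  decide

theorem chi8_natAbs (n : ℤ) : χ₈ ((n.natAbs : ℕ) : ZMod 8) = χ₈ ((n : ℤ) : ZMod 8) := by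
  rcases Int.natAbs_eq n with h | h
  · conv_rhs => rw [h]
    rw [Int.cast_natCast]
  · conv_rhs => rw [h]
    rw [Int.cast_neg, Int.cast_natCast, chi8_neg]

/-- The norm of `a² + 4 b` modulo eight. -/
theorem chi8_norm (d a b a' : 𝓞 F) (hd : d = a ^ 2 + 4 * b) (haa : (8 : 𝓞 F) ∣ a * a' - 1) :
    χ₈ ((Ideal.absNorm (Ideal.span {d}) : ℕ) : ZMod 8) =
      sg (Algebra.trace ℤ (𝓞 F) (b * a' ^ 2)) := by
  obtain ⟨t, ht⟩ := haa
  have h1 : d * (a' * a') = 1 + (4 : ℤ) • (b * a' ^ 2 + (2 : ℤ) • (2 * t + 8 * t ^ 2)) := by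
    have h2 : a * a' = 1 + 8 * t := by linear_combination ht
    rw [hd, zsmul_eq_mul, zsmul_eq_mul]
    push_cast
    linear_combination (a * a' + 1 + 8 * t) * h2
  have h3 : a * a' = 1 + (8 : ℤ) • t := by
    rw [zsmul_eq_mul]
    push_cast
    linear_combination ht
  obtain ⟨r1, hr1⟩ := Algebra.norm_one_add_smul (4 : ℤ) (b * a' ^ 2 + (2 : ℤ) • (2 * t + 8 * t ^ 2))
  obtain ⟨r2, hr2⟩ := Algebra.norm_one_add_smul (8 : ℤ) t
  rw [← h1, map_mul, map_mul, map_add, _root_.map_smul, smul_eq_mul] at hr1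
  rw [← h3, map_mul] at hr2
  set n : ZMod 8 := ((Algebra.norm ℤ d : ℤ) : ZMod 8) with hn
  set n' : ZMod 8 := ((Algebra.norm ℤ a' : ℤ) : ZMod 8) with hn'
  set T : ℤ := Algebra.trace ℤ (𝓞 F) (b * a' ^ 2) with hT
  have e1 := congrArg (fun x : ℤ => (x : ZMod 8)) hr1
  have e2 := congrArg (fun x : ℤ => (x : ZMod 8)) hr2
  have e8 : (8 : ZMod 8) = 0 := by decide
  have e16 : (16 : ZMod 8) = 0 := by decide
  push_cast at e1 e2
  rw [← hn, ← hn'] at e1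
  rw [← hn'] at e2
  have e3 : n * (n' * n') = 1 + (T : ZMod 8) * 4 := by
    rw [e1]
    linear_combination ((Algebra.trace ℤ (𝓞 F) (2 * t + 8 * t ^ 2) : ℤ) : ZMod 8) * e8 +
      (r1 : ZMod 8) * e16
  have e4 : ((Algebra.norm ℤ a : ℤ) : ZMod 8) * n' = 1 := by
    rw [e2]
    linear_combination (((Algebra.trace ℤ (𝓞 F) t : ℤ) : ZMod 8) + 8 * (r2 : ZMod 8)) * e8
  have e5 : n' * n' = 1 := by
    have : ∀ x y : ZMod 8, x * y = 1 → y * y = 1 := by decide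
    exact this _ _ e4
  rw [e5, mul_one] at e3
  rw [Ideal.absNorm_span_singleton, chi8_natAbs, ← hn, e3]
  unfold sg
  by_cases hT2 : Even T
  · rw [if_pos hT2]
    obtain ⟨k, hk⟩ := hT2
    have : (T : ZMod 8) * 4 = 0 := by
      rw [hk]
      push_cast
      linear_combination (k : ZMod 8) * e8
    rw [this, add_zero]
    decide
  · rw [if_neg hT2]
    rw [Int.not_even_iff_odd] at hT2
    obtain ⟨k, hk⟩ := hT2
    have : 1 + (T : ZMod 8) * 4 = 5 := by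
      rw [hk]
      push_cast
      linear_combination (k : ZMod 8) * e8
    rw [this]
    decide

theorem odd_absNorm (v : HeightOneSpectrum (𝓞 F)) (h2 : (2 : 𝓞 F) ∉ v.asIdeal) :
    ringChar (𝓞 F ⧸ v.asIdeal) ≠ 2 := by
  intro h
  apply h2
  have h3 : ((2 : ℕ) : 𝓞 F ⧸ v.asIdeal) = 0 := by
    rw [← h]
    exact ringChar.Nat.cast_ringChar
  rw [← Ideal.Quotient.eq_zero_iff_mem, map_ofNat]
  exact_mod_cast h3

/-- The quadratic symbol of two. -/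
theorem chi_two (v : HeightOneSpectrum (𝓞 F)) (h2 : (2 : 𝓞 F) ∉ v.asIdeal) :
    chi v (2 : 𝓞 F) = χ₈ ((Ideal.absNorm v.asIdeal : ℕ) : ZMod 8) := by
  classical
  have hmax := v.isMaximal
  let _ : Field (𝓞 F ⧸ v.asIdeal) := Ideal.Quotient.field _
  have hfin : Finite (𝓞 F ⧸ v.asIdeal) := Ideal.finiteQuotientOfFreeOfNeBot _ v.ne_bot
  let _ := Fintype.ofFinite (𝓞 F ⧸ v.asIdeal)
  have hcard : Ideal.absNorm v.asIdeal = Fintype.card (𝓞 F ⧸ v.asIdeal) := by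
    rw [← Nat.card_eq_fintype_card]
    rfl
  have hq := quadraticChar_two (F := 𝓞 F ⧸ v.asIdeal) (odd_absNorm v h2)
  rw [← hcard] at hq
  rw [← hq]
  have h20 : (2 : 𝓞 F ⧸ v.asIdeal) ≠ 0 := by
    intro h
    apply h2
    rw [← Ideal.Quotient.eq_zero_iff_mem, map_ofNat]
    exact h
  have hodd : ¬ OddAt v (2 : 𝓞 F) := not_oddAt_of_not_mem h2
  have hiff : IsSqAt v (2 : 𝓞 F) ↔ IsSquare (2 : 𝓞 F ⧸ v.asIdeal) := by
    constructor
    · rintro ⟨x, k, hk1, hk2, hk3⟩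
      have hk : k = 0 := by
        by_contra hk0
        exact h2 (Ideal.pow_le_self (by omega) hk1)
      subst hk
      refine ⟨Ideal.Quotient.mk v.asIdeal x, ?_⟩
      rw [← map_mul, ← sub_eq_zero, ← map_ofNat (Ideal.Quotient.mk v.asIdeal) 2, ← map_sub]
      rw [Ideal.Quotient.eq_zero_iff_mem]
      have h4 : (2 : 𝓞 F) - x * x = -(x ^ 2 - 2) := by ring
      rw [h4]
      rw [mul_zero, zero_add, pow_one] at hk3
      exact neg_mem hk3
    · rintro ⟨x, hx⟩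
      obtain ⟨y, rfl⟩ := Ideal.Quotient.mk_surjective x
      refine ⟨y, 0, by simp, by simpa using h2, ?_⟩
      rw [mul_zero, zero_add, pow_one, ← Ideal.Quotient.eq_zero_iff_mem, map_sub, map_pow,
        map_ofNat, hx]
      ring
  by_cases hs : IsSqAt v (2 : 𝓞 F)
  · rw [chi_of_sq v 2 hodd hs, (quadraticChar_one_iff_isSquare h20).2 (hiff.1 hs)]
  · rw [chi_of_nsq v 2 hodd hs, quadraticChar_neg_one_iff_not_isSquare.2 (fun h => hs (hiff.2 h))]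

/-- `χ₈` of the norm of an ideal. -/
theorem chi8_absNorm (I : Ideal (𝓞 F)) (hI : I ≠ 0) :
    χ₈ ((Ideal.absNorm I : ℕ) : ZMod 8) =
      chiI (fun v => χ₈ ((Ideal.absNorm v.asIdeal : ℕ) : ZMod 8)) I := by
  classical
  revert hI
  refine UniqueFactorizationMonoid.induction_on_prime (P := fun I : Ideal (𝓞 F) => I ≠ 0 →
    χ₈ ((Ideal.absNorm I : ℕ) : ZMod 8) =
      chiI (fun v => χ₈ ((Ideal.absNorm v.asIdeal : ℕ) : ZMod 8)) I) I ?_ ?_ ?_
  · intro h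
    exact absurd rfl h
  · intro J hJ _
    have h1 : J = 1 := by
      rw [Ideal.one_eq_top]
      exact Ideal.isUnit_iff.1 hJ
    rw [h1, map_one, chiI_one, Nat.cast_one, map_one]
  · intro J P hJ0 hP ih _
    have hp : P.IsPrime := Ideal.isPrime_of_prime hP
    have h3 := chiI_place (fun v : HeightOneSpectrum (𝓞 F) =>
      χ₈ ((Ideal.absNorm v.asIdeal : ℕ) : ZMod 8)) ⟨P, hp, hP.ne_zero⟩
    rw [map_mul, Nat.cast_mul, map_mul, chiI_mul, ih hJ0, h3]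

/-- The supplementary law, odd side: `χ₈ (N d)` as a product of symbols. -/
theorem chi8_prod (d : 𝓞 F) (hd2 : IsCoprime d 2) (S : Finset (HeightOneSpectrum (𝓞 F)))
    (hS : ∀ Q : HeightOneSpectrum (𝓞 F), OddAt Q d → Q ∈ S)
    (hS' : ∀ Q ∈ S, OddAt Q d) :
    χ₈ ((Ideal.absNorm (Ideal.span {d}) : ℕ) : ZMod 8) = ∏ Q ∈ S, chi Q (2 : 𝓞 F) := by
  classical
  have hd0 : d ≠ 0 := ne_zero_of_coprime_two hd2
  have hI : Ideal.span {d} ≠ 0 := by
    rw [Ideal.zero_eq_bot, Ne, Ideal.span_singleton_eq_bot]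
    exact hd0
  obtain ⟨S', hS1⟩ := exists_places d hd0
  have hmem : ∀ Q ∈ S, d ∈ Q.asIdeal := by
    intro Q hQ
    obtain ⟨k, hk, -⟩ := hS' Q hQ
    exact Ideal.pow_le_self (by omega) hk
  have hsub : S ⊆ S' := fun Q hQ => hS1 Q (hmem Q hQ)
  rw [chi8_absNorm _ hI, chiI_eq_prod _ _ hI S' (fun Q hQ =>
    hS1 Q ((Ideal.span_singleton_le_iff_mem _).1 hQ)), ← Finset.prod_subset hsub]
  · refine Finset.prod_congr rfl fun Q hQ => ?_
    have h2 := not_two_mem_of_coprime hd2 Q (hmem Q hQ)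
    rw [← chi_two Q h2]
    have hodd := (oddAt_iff Q d hd0).1 (hS' Q hQ)
    rcases chi_of_not_odd Q (2 : 𝓞 F) (not_oddAt_of_not_mem h2) with h | h
    · rw [h, one_pow]
    · rw [h]
      exact hodd.neg_one_pow
  · intro Q hQ hQS
    have hev : Even (od Q.asIdeal (Ideal.span {d})) := by
      rw [← Nat.not_odd_iff_even]
      intro h
      exact hQS (hS Q ((oddAt_iff Q d hd0).2 h))
    by_cases hdQ : d ∈ Q.asIdeal
    · have h2 := not_two_mem_of_coprime hd2 Q hdQ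
      rw [← chi_two Q h2]
      rcases chi_of_not_odd Q (2 : 𝓞 F) (not_oddAt_of_not_mem h2) with h | h
      · rw [h, one_pow]
      · rw [h]
        exact hev.neg_one_pow
    · rw [od_eq_zero Q d hd0 hdQ, pow_zero]

/-- The symbol of `x² = a x + b` at a dyadic place. -/
theorem sol_of_quad (v : HeightOneSpectrum (𝓞 F)) (h2 : (2 : 𝓞 F) ∈ v.asIdeal) (a b a' : 𝓞 F)
    (haa : (8 : 𝓞 F) ∣ a * a' - 1) :
    Sol v (b * a' ^ 2) ↔ ∃ x : 𝓞 F, x ^ 2 - a * x - b ∈ v.asIdeal := by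
  obtain ⟨t, ht⟩ := haa
  have hat : a * a' - 1 ∈ v.asIdeal := by
    rw [ht]
    have : (8 : 𝓞 F) * t = 2 * (4 * t) := by ring
    rw [this]
    exact Ideal.mul_mem_right _ _ h2
  constructor
  · rintro ⟨x, hx⟩
    refine ⟨a * x, ?_⟩
    have e : (a * x) ^ 2 - a * (a * x) - b =
        a ^ 2 * (x ^ 2 + x - b * a' ^ 2) - 2 * (a ^ 2 * x) +
          (b * (a * a' + 1)) * (a * a' - 1) := by ring
    rw [e]
    exact add_mem (sub_mem (Ideal.mul_mem_left _ _ hx) (Ideal.mul_mem_right _ _ h2))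
      (Ideal.mul_mem_left _ _ hat)
  · rintro ⟨x, hx⟩
    refine ⟨a' * x, ?_⟩
    have e : (a' * x) ^ 2 + a' * x - b * a' ^ 2 =
        a' ^ 2 * (x ^ 2 - a * x - b) + (a' * x) * (a * a' - 1) + 2 * (a' * x) := by ring
    rw [e]
    exact add_mem (add_mem (Ideal.mul_mem_left _ _ hx) (Ideal.mul_mem_left _ _ hat))
      (Ideal.mul_mem_right _ _ h2)

theorem exists_inv_eight (a : 𝓞 F) (ha : IsCoprime a 2) : ∃ a' : 𝓞 F, (8 : 𝓞 F) ∣ a * a' - 1 := by
  have h3 : IsCoprime a (2 ^ 3) := ha.pow_right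
  obtain ⟨x, y, hxy⟩ := h3
  exact ⟨x, -y, by linear_combination hxy⟩

/-- **The supplementary law for two.** -/
theorem law_two (h : Unr2 F) (d a b : 𝓞 F) (hd : d = a ^ 2 + 4 * b) (hd2 : IsCoprime d 2)
    (D S : Finset (HeightOneSpectrum (𝓞 F))) (hD : ∀ v, v ∈ D ↔ (2 : 𝓞 F) ∈ v.asIdeal)
    (hS : ∀ Q : HeightOneSpectrum (𝓞 F), Q ∈ S ↔ OddAt Q d)
    (χ : HeightOneSpectrum (𝓞 F) → ℤ)
    (hχ : ∀ v ∈ D, (χ v = 1 ∨ χ v = -1) ∧
      (χ v = 1 ↔ ∃ x : 𝓞 F, x ^ 2 - a * x - b ∈ v.asIdeal)) :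
    ∏ v ∈ D, χ v = ∏ Q ∈ S, chi Q (2 : 𝓞 F) := by
  have ha : IsCoprime a 2 := by
    obtain ⟨p, q, hpq⟩ := hd2
    exact ⟨p * a, 2 * p * b + q, by rw [hd] at hpq; linear_combination hpq⟩
  obtain ⟨a', haa⟩ := exists_inv_eight a ha
  rw [← chi8_prod d hd2 S (fun Q hQ => (hS Q).2 hQ) (fun Q hQ => (hS Q).1 hQ),
    chi8_norm d a b a' hd haa, ← prod_sol h (b * a' ^ 2) D hD]
  refine Finset.prod_congr rfl fun v hv => ?_
  obtain ⟨h1, h3⟩ := hχ v hv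
  have h4 := sol_of_quad v ((hD v).1 hv) a b a' haa
  unfold sol
  by_cases hs : Sol v (b * a' ^ 2)
  · rw [if_pos hs, h3.2 (h4.1 hs)]
  · rw [if_neg hs]
    rcases h1 with h1 | h1
    · exact absurd (h4.2 (h3.1 h1)) hs
    · exact h1

end

end Pool.Agent.Lib.MP_1a91b9_ntT.S10
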