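import Pool.Agent.Lib.MP_1a91b9_ntT.S10.Norm
import Pool.Agent.Lib.MP_1a91b9_ntT.S10.ChiMul

/-!
# S10: the value of the ray class character at `(2)`
-/

set_option autoImplicit false

namespace Pool.Agent.Lib.MP_1a91b9_ntT.S10

open NumberField IsDedekindDomain Pool.Agent.Lib.MP_1a91b9_nt
open Pool.Agent.Lib.MP_1a91b9_ntT.S4

universe u

section
variable {F F' : Type u} [Field F] [NumberField F] [Field F'] [NumberField F'] [Algebra F F']

theorem psi_eq_one {ψ : Ideal (𝓞 F) → ℤ} (h1 : ψ 1 = 1) (hmul : ∀ I J, ψ (I * J) = ψ I * ψ J)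
    (I : Ideal (𝓞 F)) (hI : I ≠ 0)
    (h : ∀ v : HeightOneSpectrum (𝓞 F), I ≤ v.asIdeal → ψ v.asIdeal = 1) : ψ I = 1 := by
  induction I using UniqueFactorizationMonoid.induction_on_prime with
  | h₁ => exact absurd rfl hI
  | h₂ J hJ =>
    have : J = 1 := by
      rw [Ideal.isUnit_iff] at hJ
      rw [hJ, Ideal.one_eq_top]
    rw [this, h1]
  | h₃ J P hJ hP ih =>
    rw [hmul, ih hJ fun v hv => h v (le_trans Ideal.mul_le_right hv), mul_one]
    exact h ⟨P, Ideal.isPrime_of_prime hP, hP.ne_zero⟩ (Ideal.le_of_dvd (dvd_mul_right _ _))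

open Classical in
/-- The ray class character of `F(√δ)` at `(2)`. -/
theorem IsRC.two [IsTotallyComplex F] (hL : Module.finrank F F' = 2) (δ : 𝓞 F)
    (hodd : IsCoprime δ 2) (hsq : ∃ a b : 𝓞 F, δ = a ^ 2 + 4 * b) (x : F')
    (hx : x ^ 2 = algebraMap F F' δ) (hn : ¬ ∃ y : F, algebraMap F F' y = x)
    {m : Ideal (𝓞 F)} {ψ : Ideal (𝓞 F) → ℤ} (h : IsRC F' m ψ)
    (hm2 : IsCoprime m (Ideal.span {(2 : 𝓞 F)}))
    (hmv : ∀ v : HeightOneSpectrum (𝓞 F), OddAt v δ → m ≤ v.asIdeal)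
    (S : Finset (HeightOneSpectrum (𝓞 F))) (hS : ∀ Q, OddAt Q δ → Q ∈ S) :
    ψ (Ideal.span {2}) = ∏ Q ∈ S.filter (fun Q => OddAt Q δ), S1.chi Q 2 := by
  have hδ0 : δ ≠ 0 := S1.ne_zero_of_coprime_two hodd
  obtain ⟨a1, ha1, b1, hb1, hab⟩ := Ideal.isCoprime_iff_exists.mp hm2
  obtain ⟨t, ht⟩ := Ideal.mem_span_singleton.mp hb1
  set z : 𝓞 F := 2 + a1 with hz
  have hz2 : IsCoprime z 2 := ⟨1, t - 1, by rw [hz]; linear_combination hab - ht⟩
  have hz0 : z ≠ 0 := S1.ne_zero_of_coprime_two hz2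
  have hzm : z - 2 ∈ m := by
    have : z - 2 = a1 := by rw [hz]; ring
    rw [this]
    exact ha1
  have h20 : (2 : 𝓞 F) ≠ 0 := by norm_num
  have hray : RayEq m (Ideal.span {2}) (Ideal.span {z}) :=
    ⟨1, 2, z, one_ne_zero, h20, hz0, mul_one _, mul_one _, by
      rw [mul_one, ← neg_sub]
      exact (Ideal.neg_mem_iff _).mpr hzm⟩
  have hzQ : ∀ Q : HeightOneSpectrum (𝓞 F), OddAt Q δ → z ∉ Q.asIdeal := by
    intro Q hQ h1
    have h2 := Ideal.sub_mem _ h1 (hmv Q hQ hzm)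
    rw [sub_sub_cancel] at h2
    exact coprime_not_le hm2 Q (hmv Q hQ) ((Ideal.span_singleton_le_iff_mem _).mpr h2)
  have hzc : IsCoprime (Ideal.span {z}) (Ideal.span {(2 : 𝓞 F)}) :=
    (Ideal.isCoprime_span_singleton_iff _ _).mpr hz2
  have hzcm : IsCoprime (Ideal.span {z}) m := hray.coprime hm2.symm
  have e1 : ψ (Ideal.span {2}) = chiI (splitChar F') (Ideal.span {z}) := by
    rw [h.ray _ _ hray]
    exact h.val _ hzcm hzc
  obtain ⟨S', hS1, hS2, hS3⟩ := S1.reciprocity_explicit δ z hodd hsq hz2 hzQ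
  have hI : Ideal.span {z} ≠ 0 := by
    rw [Ideal.zero_eq_bot, Ne, Ideal.span_singleton_eq_bot]
    exact hz0
  have hfil : S.filter (fun Q => OddAt Q δ) = S'.filter (fun Q => OddAt Q δ) := by
    ext Q
    rw [Finset.mem_filter, Finset.mem_filter]
    exact ⟨fun h => ⟨hS1 Q h.2, h.2⟩, fun h => ⟨hS Q h.2, h.2⟩⟩
  have e2 := S1.chiI_eq_prod (splitChar F') (Ideal.span {z}) hI S' (fun Q hQ =>
      hS2 Q ((Ideal.span_singleton_le_iff_mem _).1 hQ))
  have e3 : (∏ Q ∈ S'.filter (fun Q => OddAt Q δ), S1.chi Q z) *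
      chiI (splitChar F') (Ideal.span {z}) = 1 := by
    rw [e2, Finset.prod_filter, ← Finset.prod_mul_distrib]
    refine Eq.trans ?_ hS3
    apply Finset.prod_congr rfl
    intro Q _
    by_cases hQ : OddAt Q δ
    · rw [if_pos hQ, S1.eps_odd hQ, S1.od_eq_zero Q z hz0 (hzQ Q hQ), pow_zero, mul_one]
    · rw [if_neg hQ, S1.eps_even hQ, one_mul]
      by_cases hzQ : z ∈ Q.asIdeal
      · rw [splitChar_eq_chi hL δ x hx hn Q (S1.not_two_mem_of_coprime hz2 Q hzQ)]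
      · rw [S1.od_eq_zero Q z hz0 hzQ, pow_zero, pow_zero]
  have e4 : ∏ Q ∈ S'.filter (fun Q => OddAt Q δ), S1.chi Q z =
      ∏ Q ∈ S'.filter (fun Q => OddAt Q δ), S1.chi Q 2 := by
    refine Finset.prod_congr rfl fun Q hQ => ?_
    rw [Finset.mem_filter] at hQ
    exact S1.chi_congr (hzQ Q hQ.2) (hmv Q hQ.2 hzm)
  rw [hfil, e1, ← e4]
  have e5 : chiI (splitChar F') (Ideal.span {z}) = 1 ∨ chiI (splitChar F') (Ideal.span {z}) = -1 := by
    rw [← h.val _ hzcm hzc]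
    exact h.pm _ hzcm
  rcases e5 with e5 | e5 <;> rw [e5] at e3 ⊢ <;> linarith

end

end Pool.Agent.Lib.MP_1a91b9_ntT.S10
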